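import Mathlib

/-!
Isometric extensions of W*-dynamical systems: definitions.
-/

set_option autoImplicit false
open scoped InnerProductSpace ENNReal NNReal

namespace Pool.Agent.K3h42.IE

universe u

/-- `α` restricts to a *-automorphism of the von Neumann algebra `A` (its values off `A` are
irrelevant). -/
structure IsAut {H : Type u} [NormedAddCommGroup H] [InnerProductSpace ℂ H] [CompleteSpace H]
    (A : VonNeumannAlgebra H) (α : (H →L[ℂ] H) → (H →L[ℂ] H)) : Prop where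
  bij : Set.BijOn α A A
  map_add : ∀ a ∈ A, ∀ b ∈ A, α (a + b) = α a + α b
  map_mul : ∀ a ∈ A, ∀ b ∈ A, α (a * b) = α a * α b
  map_smul : ∀ c : ℂ, ∀ a ∈ A, α (c • a) = c • α a
  map_star : ∀ a ∈ A, α (star a) = star (α a)

/-- A system `(A, μ, α)` in its GNS representation on `H`: `A` is a von Neumann algebra on `H`, `Ω` is
a cyclic and separating unit vector, `μ(a) = ⟪Ω, a Ω⟫` is a (faithful normal) tracial state of `A`,
`α` is a *-automorphism of `A` with `μ ∘ α = μ`, `U` is the unitary with `U a Ω = α(a) Ω`, and `J` is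
the modular conjugation, the conjugate-linear isometry with `J a Ω = a* Ω`. -/
structure TracialSystem (H : Type u) [NormedAddCommGroup H] [InnerProductSpace ℂ H]
    [CompleteSpace H] where
  /-- the von Neumann algebra -/
  A : VonNeumannAlgebra H
  /-- the cyclic and separating vector -/
  Ω : H
  norm_Ω : ‖Ω‖ = 1
  cyclic : Dense {x : H | ∃ a ∈ A, x = a Ω}
  separating : ∀ a ∈ A, a Ω = 0 → a = 0
  tracial : ∀ a ∈ A, ∀ b ∈ A, ⟪Ω, (a * b) Ω⟫_ℂ = ⟪Ω, (b * a) Ω⟫_ℂ
  /-- the automorphism -/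
  α : (H →L[ℂ] H) → (H →L[ℂ] H)
  isAut : IsAut A α
  invariant : ∀ a ∈ A, ⟪Ω, (α a) Ω⟫_ℂ = ⟪Ω, a Ω⟫_ℂ
  /-- the unitary implementing the automorphism -/
  U : H ≃ₗᵢ[ℂ] H
  U_apply : ∀ a ∈ A, U (a Ω) = (α a) Ω
  /-- the modular conjugation -/
  J : H ≃ₗᵢ⋆[ℂ] H
  J_apply : ∀ a ∈ A, J (a Ω) = (star a) Ω

variable {H : Type u} [NormedAddCommGroup H] [InnerProductSpace ℂ H] [CompleteSpace H]

/-- `τ` restricts to a faithful normal semifinite trace on the positive elements of `M` (a von Neumann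
algebra on `H`, given as a set of operators); the values of `τ` elsewhere are irrelevant. -/
structure IsFNSTrace (M : Set (H →L[ℂ] H)) (τ : (H →L[ℂ] H) → ℝ≥0∞) : Prop where
  add : ∀ x ∈ M, ∀ y ∈ M, 0 ≤ x → 0 ≤ y → τ (x + y) = τ x + τ y
  smul : ∀ c : ℝ≥0, ∀ x ∈ M, 0 ≤ x → τ (((c : ℝ) : ℂ) • x) = c * τ x
  trace : ∀ x ∈ M, τ (star x * x) = τ (x * star x)
  normal : ∀ D : Set (H →L[ℂ] H), (∀ x ∈ D, x ∈ M ∧ 0 ≤ x) → D.Nonempty →
    DirectedOn (· ≤ ·) D → ∀ y, IsLUB D y → τ y = ⨆ x ∈ D, τ x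
  faithful : ∀ x ∈ M, 0 ≤ x → τ x = 0 → x = 0
  semifinite : ∀ x ∈ M, 0 ≤ x → x ≠ 0 → ∃ y ∈ M, 0 ≤ y ∧ y ≤ x ∧ y ≠ 0 ∧ τ y < ∞

namespace TracialSystem

/-- `F` is (the algebra of) a subsystem: a von Neumann subalgebra of `A` with `α(F) = F`. -/
def IsSubsystem (S : TracialSystem H) (F : VonNeumannAlgebra H) : Prop :=
  F ≤ S.A ∧ S.α '' F = F

/-- `H_F`, the closure of `F Ω`. -/
def sub (S : TracialSystem H) (F : VonNeumannAlgebra H) : Submodule ℂ H :=
  (Submodule.span ℂ {x : H | ∃ f ∈ F, x = f S.Ω}).topologicalClosure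

noncomputable instance (S : TracialSystem H) (F : VonNeumannAlgebra H) :
    (S.sub F).HasOrthogonalProjection := by
  unfold sub
  infer_instance

/-- `e_F`, the orthogonal projection onto `H_F`. -/
noncomputable def e (S : TracialSystem H) (F : VonNeumannAlgebra H) : H →L[ℂ] H :=
  (S.sub F).starProjection

/-- The basic construction `⟨A, e_F⟩`, the von Neumann algebra generated by `A` and `e_F`, i.e. the
double commutant of the self-adjoint set `A ∪ {e_F}`. -/
def basic (S : TracialSystem H) (F : VonNeumannAlgebra H) : Set (H →L[ℂ] H) :=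
  Set.centralizer (Set.centralizer ((S.A : Set (H →L[ℂ] H)) ∪ {S.e F}))

/-- `τ` is (an extension, by arbitrary values, of) the canonical trace `μ̄` of the basic construction
`⟨A, e_F⟩`: on the positive elements of `⟨A, e_F⟩` it is a faithful normal semifinite trace, and
`μ̄(a e_F a*) = μ(a a*)` for `a ∈ A`. -/
structure IsCanonicalTrace (S : TracialSystem H) (F : VonNeumannAlgebra H)
    (τ : (H →L[ℂ] H) → ℝ≥0∞) : Prop extends IsFNSTrace (S.basic F) τ where
  formula : ∀ a ∈ S.A, τ (a * S.e F * star a) =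
    ENNReal.ofReal (⟪S.Ω, (a * star a) S.Ω⟫_ℂ).re

/-- `V` is a `U`-`μ̄`-module: a closed subspace of `H ⊖ H_F` which is a right `F`-module
(`J f* J V ⊆ V` for `f ∈ F`), with `U V = V` and `μ̄(P_V) < ∞`, where `P_V` is the orthogonal
projection onto `V`. -/
structure IsUModule (S : TracialSystem H) (F : VonNeumannAlgebra H) (τ : (H →L[ℂ] H) → ℝ≥0∞)
    (V : Submodule ℂ H) : Prop where
  closed : IsClosed (V : Set H)
  right : ∀ f ∈ F, ∀ x ∈ V, S.J ((star f) (S.J x)) ∈ V
  perp : V ≤ (S.sub F)ᗮ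
  inv : V.map (S.U.toLinearEquiv : H →ₗ[ℂ] H) = V
  finite : τ V.topologicalClosure.starProjection < ∞

/-- `𝓔_{A/F}`, the closed linear span of all `U`-`μ̄`-modules. -/
def relSpan (S : TracialSystem H) (F : VonNeumannAlgebra H) (τ : (H →L[ℂ] H) → ℝ≥0∞) :
    Submodule ℂ H :=
  (sSup {V : Submodule ℂ H | S.IsUModule F τ V}).topologicalClosure

/-- The system is an isometric extension of the subsystem `F` (it has discrete spectrum relative to
`F`): `𝓔_{A/F} = H ⊖ H_F`, for the canonical trace of the basic construction `⟨A, e_F⟩`. -/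
def IsIsometricExtension (S : TracialSystem H) (F : VonNeumannAlgebra H) : Prop :=
  ∃ τ : (H →L[ℂ] H) → ℝ≥0∞, S.IsCanonicalTrace F τ ∧ S.relSpan F τ = (S.sub F)ᗮ

end TracialSystem

end Pool.Agent.K3h42.IE
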