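import Mathlib

/-!
Partial isometries, projections and polar decomposition in the commutant of a self-adjoint set of
bounded operators.
-/

set_option autoImplicit false
set_option linter.unusedSectionVars false
open ContinuousLinearMap
open scoped InnerProductSpace

namespace Pool.Agent.K3h42.IE

variable {H : Type*} [NormedAddCommGroup H] [InnerProductSpace ℂ H] [CompleteSpace H]

theorem mulA (a b : H →L[ℂ] H) (x : H) : (a * b) x = a (b x) := rfl

theorem star_inner (a : H →L[ℂ] H) (x y : H) : ⟪(star a) x, y⟫_ℂ = ⟪x, a y⟫_ℂ := by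
  rw [ContinuousLinearMap.star_eq_adjoint, ContinuousLinearMap.adjoint_inner_left]

theorem inner_star (a : H →L[ℂ] H) (x y : H) : ⟪x, (star a) y⟫_ℂ = ⟪a x, y⟫_ℂ := by
  rw [ContinuousLinearMap.star_eq_adjoint, ContinuousLinearMap.adjoint_inner_right]

theorem ext_of_inner_self {a b : H →L[ℂ] H} (h : ∀ x, inner ℂ (a x) (x) = inner ℂ (b x) (x)) :
    a = b := by
  have h1 : ∀ x, inner ℂ ((a - b) x) (x) = 0 := fun x => by
    rw [sub_apply, inner_sub_left, h, sub_self]
  have h2 := (inner_map_self_eq_zero ((a - b : H →L[ℂ] H) : H →ₗ[ℂ] H)).1 h1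
  ext x
  have h3 := congrArg (fun f : H →ₗ[ℂ] H => f x) h2
  simpa [sub_eq_zero] using h3

/-- A set of operators closed under adjoints. -/
def SA (R : Set (H →L[ℂ] H)) : Prop := ∀ y ∈ R, star y ∈ R

/-- membership in the centralizer, pointwise -/
theorem mem_cent {R : Set (H →L[ℂ] H)} {x : H →L[ℂ] H} :
    x ∈ Set.centralizer R ↔ ∀ y ∈ R, ∀ ξ, y (x ξ) = x (y ξ) := by
  rw [Set.mem_centralizer_iff]
  constructor
  · intro h y hy ξ
    exact congrArg (fun T : H →L[ℂ] H => T ξ) (h y hy)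
  · intro h y hy
    ext ξ
    exact h y hy ξ

theorem cent_star {R : Set (H →L[ℂ] H)} (hR : SA R) {x : H →L[ℂ] H}
    (hx : x ∈ Set.centralizer R) : star x ∈ Set.centralizer R := by
  rw [Set.mem_centralizer_iff] at hx ⊢
  intro y hy
  have := congrArg star (hx (star y) (hR y hy))
  rw [star_mul, star_mul, star_star] at this
  exact this.symm

theorem cent_mul {R : Set (H →L[ℂ] H)} {x y : H →L[ℂ] H}
    (hx : x ∈ Set.centralizer R) (hy : y ∈ Set.centralizer R) : x * y ∈ Set.centralizer R :=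
  Set.mul_mem_centralizer hx hy

theorem cent_add {R : Set (H →L[ℂ] H)} {x y : H →L[ℂ] H}
    (hx : x ∈ Set.centralizer R) (hy : y ∈ Set.centralizer R) : x + y ∈ Set.centralizer R :=
  Set.add_mem_centralizer hx hy

theorem cent_sub {R : Set (H →L[ℂ] H)} {x y : H →L[ℂ] H}
    (hx : x ∈ Set.centralizer R) (hy : y ∈ Set.centralizer R) : x - y ∈ Set.centralizer R := by
  rw [sub_eq_add_neg]
  exact Set.add_mem_centralizer hx (Set.neg_mem_centralizer hy)

theorem cent_one {R : Set (H →L[ℂ] H)} : (1 : H →L[ℂ] H) ∈ Set.centralizer R :=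
  Set.one_mem_centralizer

theorem cent_smul {R : Set (H →L[ℂ] H)} {x : H →L[ℂ] H} (c : ℂ)
    (hx : x ∈ Set.centralizer R) : c • x ∈ Set.centralizer R := by
  rw [Set.mem_centralizer_iff] at hx ⊢
  intro y hy
  rw [mul_smul_comm, smul_mul_assoc, hx y hy]

/-- The graph lemma: an isometric relation invariant under `R` is implemented by a partial
isometry commuting with `R`. -/
theorem exists_pisom {R : Set (H →L[ℂ] H)} (hR : SA R) (Γ : Submodule ℂ (H × H))
    (hiso : ∀ z ∈ Γ, ‖z.1‖ = ‖z.2‖)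
    (hinv : ∀ y ∈ R, ∀ z ∈ Γ, ((y z.1, y z.2) : H × H) ∈ Γ) :
    ∃ v ∈ Set.centralizer R, (∀ z ∈ Γ, v z.1 = z.2) ∧ (∀ z ∈ Γ, (star v) z.2 = z.1) ∧
      IsStarProjection (star v * v) ∧ v * star v * v = v ∧
      (∀ a : H →L[ℂ] H, (∀ z ∈ Γ, a z.1 = 0) → a * (star v * v) = 0) ∧
      (∀ a : H →L[ℂ] H, (∀ z ∈ Γ, a z.2 = 0) → a * v = 0) := by
  set Γ' : Submodule ℂ (H × H) := Γ.topologicalClosure with hΓ'
  have hcl : IsClosed (Γ' : Set (H × H)) := Γ.isClosed_topologicalClosure
  have hle : Γ ≤ Γ' := Γ.le_topologicalClosure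
  have hiso' : ∀ z ∈ Γ', ‖z.1‖ = ‖z.2‖ := by
    intro z hz
    have hc : IsClosed {z : H × H | ‖z.1‖ = ‖z.2‖} :=
      isClosed_eq (continuous_fst.norm) (continuous_snd.norm)
    have : (Γ' : Set (H × H)) ⊆ {z : H × H | ‖z.1‖ = ‖z.2‖} := by
      rw [hΓ', Submodule.topologicalClosure_coe]
      exact closure_minimal hiso hc
    exact this hz
  have hinv' : ∀ y ∈ R, ∀ z ∈ Γ', ((y z.1, y z.2) : H × H) ∈ Γ' := by
    intro y hy z hz
    have hcont : Continuous (fun z : H × H => ((y z.1, y z.2) : H × H)) := by fun_prop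
    have h1 : (Γ' : Set (H × H)) ⊆ (fun z : H × H => ((y z.1, y z.2) : H × H)) ⁻¹' Γ' := by
      rw [hΓ', Submodule.topologicalClosure_coe]
      refine closure_minimal (fun w hw => ?_) ((isClosed_closure).preimage hcont)
      exact subset_closure (hinv y hy w hw)
    exact h1 hz
  have hΓc : CompleteSpace Γ' := hcl.completeSpace_coe
  -- the isometry fst
  have hnorm : ∀ z : Γ', ‖(z : H × H)‖ = ‖(z : H × H).1‖ := by
    intro z
    rw [Prod.norm_def, hiso' z z.2, max_self]
  let f₁ : Γ' →ₗᵢ[ℂ] H :=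
    { toLinearMap := (LinearMap.fst ℂ H H).comp Γ'.subtype
      norm_map' := fun z => (hnorm z).symm }
  let f₂ : Γ' →L[ℂ] H := (ContinuousLinearMap.snd ℂ H H).comp Γ'.subtypeL
  have hf₁ : ∀ z : Γ', f₁ z = (z : H × H).1 := fun z => rfl
  have hf₂ : ∀ z : Γ', f₂ z = (z : H × H).2 := fun z => rfl
  set K : Submodule ℂ H := f₁.toLinearMap.range with hK
  let e : Γ' ≃ₗᵢ[ℂ] K := f₁.equivRange
  have hKc : CompleteSpace K := e.toIsometryEquiv.completeSpace_iff.1 hΓc
  let P : H →L[ℂ] K := K.orthogonalProjectionOnto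
  let v : H →L[ℂ] H := f₂.comp ((e.symm.toContinuousLinearEquiv : K →L[ℂ] Γ').comp P)
  have he : ∀ z : Γ', e z = ⟨(z : H × H).1, ⟨z, rfl⟩⟩ := fun z => rfl
  have hv1 : ∀ z ∈ Γ', v z.1 = z.2 := by
    intro z hz
    have h1 : P z.1 = e ⟨z, hz⟩ := by
      have : P ((e ⟨z, hz⟩ : K) : H) = e ⟨z, hz⟩ :=
        Submodule.orthogonalProjectionOnto_mem_subspace_eq_self _
      exact this
    change f₂ (e.symm (P z.1)) = z.2
    rw [h1, e.symm_apply_apply, hf₂]
  have hv0 : ∀ x ∈ Kᗮ, v x = 0 := by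
    intro x hx
    have h1 : P x = 0 := Submodule.orthogonalProjectionOnto_apply_of_mem_orthogonal hx
    change f₂ (e.symm (P x)) = 0
    rw [h1]; simp
  set p : H →L[ℂ] H := K.starProjection with hp
  have hpstar : IsStarProjection p := isStarProjection_starProjection
  have hdec : ∀ x : H, x - p x ∈ Kᗮ := fun x => K.sub_starProjection_mem_orthogonal x
  have hpK : ∀ x : H, p x ∈ K := fun x => K.starProjection_apply_mem x
  have hvp : ∀ x, v x = v (p x) := by
    intro x
    have h1 : v (x - p x) = 0 := hv0 _ (hdec x)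
    rw [map_sub, sub_eq_zero] at h1
    exact h1
  have hKmem : ∀ x ∈ K, ∃ z ∈ Γ', z.1 = x := by
    rintro x ⟨z, rfl⟩
    exact ⟨z, z.2, rfl⟩
  have hnv : ∀ x, ‖v x‖ = ‖p x‖ := by
    intro x
    obtain ⟨z, hz, hzx⟩ := hKmem (p x) (hpK x)
    rw [hvp x, ← hzx, hv1 z hz, hiso' z hz]
  have hvv : star v * v = p := by
    apply ext_of_inner_self
    intro x
    have h1 : inner ℂ ((star v * v) x) (x) = inner ℂ (v x) (v x) := by
      rw [mulA, star_eq_adjoint, adjoint_inner_left]
    have h2 : inner ℂ (p x) (x) = inner ℂ (p x) (p x) := by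
      have h3 : inner ℂ (p x) (x - p x) = 0 := (hdec x) _ (hpK x)
      rw [inner_sub_right, sub_eq_zero] at h3
      exact h3
    rw [h1, h2, inner_self_eq_norm_sq_to_K, inner_self_eq_norm_sq_to_K, hnv]
  have hvpm : v * p = v := by
    ext x
    rw [mulA, ← hvp x]
  have hinvK : ∀ y ∈ R, ∀ x ∈ K, y x ∈ K := by
    intro y hy x hx
    obtain ⟨z, hz, rfl⟩ := hKmem x hx
    exact ⟨⟨_, hinv' y hy z hz⟩, rfl⟩
  have hinvK' : ∀ y ∈ R, ∀ x ∈ Kᗮ, y x ∈ Kᗮ := by
    intro y hy x hx w hw
    have h1 : (star y) w ∈ K := hinvK (star y) (hR y hy) w hw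
    have h2 := hx _ h1
    rwa [star_eq_adjoint, adjoint_inner_left] at h2
  refine ⟨v, ?_, ?_, ?_, ?_, ?_, ?_, ?_⟩
  · rw [mem_cent]
    intro y hy x
    have h1 : v x = v (p x) := hvp x
    have h2 : v (y x) = v (y (p x)) := by
      have h3 : v (y (x - p x)) = 0 := hv0 _ (hinvK' y hy _ (hdec x))
      rw [map_sub, map_sub, sub_eq_zero] at h3
      exact h3
    obtain ⟨z, hz, hzx⟩ := hKmem (p x) (hpK x)
    rw [h1, h2, ← hzx, hv1 z hz]
    exact (hv1 _ (hinv' y hy z hz)).symm
  · exact fun z hz => hv1 z (hle hz)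
  · intro z hz
    have h1 : (star v * v) z.1 = p z.1 := by rw [hvv]
    rw [mulA, hv1 z (hle hz)] at h1
    rw [h1]
    exact (K.starProjection_eq_self_iff).2 ⟨⟨z, hle hz⟩, rfl⟩
  · rw [hvv]; exact hpstar
  · rw [mul_assoc, hvv, hvpm]
  · intro a ha
    rw [hvv]
    ext x
    rw [mulA]
    obtain ⟨z, hz, hzx⟩ := hKmem (p x) (hpK x)
    rw [← hzx]
    have hc : IsClosed {z : H × H | a z.1 = 0} :=
      isClosed_eq (by fun_prop) continuous_const
    have h1 : (Γ' : Set (H × H)) ⊆ {z : H × H | a z.1 = 0} := by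
      rw [hΓ', Submodule.topologicalClosure_coe]
      exact closure_minimal ha hc
    exact h1 hz
  · intro a ha
    ext x
    rw [mulA, hvp x]
    obtain ⟨z, hz, hzx⟩ := hKmem (p x) (hpK x)
    rw [← hzx, hv1 z hz]
    have hc : IsClosed {z : H × H | a z.2 = 0} :=
      isClosed_eq (by fun_prop) continuous_const
    have h1 : (Γ' : Set (H × H)) ⊆ {z : H × H | a z.2 = 0} := by
      rw [hΓ', Submodule.topologicalClosure_coe]
      exact closure_minimal ha hc
    exact h1 hz

theorem mem_of_commute {R : Set (H →L[ℂ] H)} (hR : SA R) {x a : H →L[ℂ] H}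
    (hx : x ∈ Set.centralizer R)
    (h : ∀ y, Commute x y → Commute (star x) y → Commute a y) : a ∈ Set.centralizer R := by
  rw [Set.mem_centralizer_iff]
  intro y hy
  have h1 : Commute x y := ((Set.mem_centralizer_iff.1 hx) y hy).symm
  have h2 : Commute (star x) y := ((Set.mem_centralizer_iff.1 (cent_star hR hx)) y hy).symm
  exact (h y h1 h2).eq.symm

theorem sqrt_mem {R : Set (H →L[ℂ] H)} (hR : SA R) {x : H →L[ℂ] H}
    (hx : x ∈ Set.centralizer R) : CFC.sqrt x ∈ Set.centralizer R := by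
  refine mem_of_commute hR hx fun y h1 _ => ?_
  rw [CFC.sqrt_eq_cfc]
  exact h1.cfc_nnreal _

theorem star_self_zero {x : H →L[ℂ] H} (h : star x * x = 0) : x = 0 :=
  (CStarRing.star_mul_self_eq_zero_iff x).1 h

/-- isometry identities -/
theorem pi_mul {v e : H →L[ℂ] H} (he : e * e = e) (h : star v * v = e) : v * e = v := by
  have hs : star e = e := by rw [← h, star_mul, star_star]
  have h1 : star (v - v * e) * (v - v * e) = 0 := by
    rw [star_sub, star_mul, hs, sub_mul, mul_sub, mul_sub, h]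
    rw [mul_assoc, mul_assoc, ← mul_assoc (star v) v e, h, he, he]
    simp
  have h2 := star_self_zero h1
  exact (sub_eq_zero.1 h2).symm

theorem pi_final {v e : H →L[ℂ] H} (he : e * e = e) (h : star v * v = e) :
    IsStarProjection (v * star v) := by
  refine ⟨?_, ?_⟩
  · change (v * star v) * (v * star v) = v * star v
    rw [mul_assoc, ← mul_assoc (star v), h, ← mul_assoc, pi_mul he h]
  · change star (v * star v) = v * star v
    rw [star_mul, star_star]

/-- polar decomposition (supports) -/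
theorem exists_polar {R : Set (H →L[ℂ] H)} (hR : SA R) {x : H →L[ℂ] H}
    (hx : x ∈ Set.centralizer R) :
    ∃ v ∈ Set.centralizer R, IsStarProjection (star v * v) ∧ x * (star v * v) = x ∧
      (∀ a : H →L[ℂ] H, x * a = 0 → v * a = 0) ∧
      (∀ a : H →L[ℂ] H, a * x = 0 → a * v = 0) ∧ (v * star v) * x = x := by
  set s : H →L[ℂ] H := CFC.sqrt (star x * x) with hs
  have hsM : s ∈ Set.centralizer R := sqrt_mem hR (cent_mul (cent_star hR hx) hx)
  have hs0 : 0 ≤ s := CFC.sqrt_nonneg _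
  have hss : s * s = star x * x := CFC.sqrt_mul_sqrt_self _ (star_mul_self_nonneg x)
  have hsa : star s = s := (IsSelfAdjoint.of_nonneg hs0).star_eq
  have hn : ∀ ξ, ‖s ξ‖ = ‖x ξ‖ := by
    intro ξ
    have h1 : inner ℂ (s ξ) (s ξ) = inner ℂ (x ξ) (x ξ) := by
      have h2 : inner ℂ ((s * s) ξ) (ξ) = inner ℂ (s ξ) (s ξ) := by
        rw [mulA]
        conv_lhs => rw [← hsa]
        rw [star_eq_adjoint, adjoint_inner_left]
        rw [← star_eq_adjoint, hsa]
      have h3 : inner ℂ ((star x * x) ξ) (ξ) = inner ℂ (x ξ) (x ξ) := by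
        rw [mulA, star_eq_adjoint, adjoint_inner_left]
      rw [← h2, hss, h3]
    rw [inner_self_eq_norm_sq_to_K, inner_self_eq_norm_sq_to_K] at h1
    have h4 : ‖s ξ‖ ^ 2 = ‖x ξ‖ ^ 2 := by exact_mod_cast h1
    nlinarith [norm_nonneg (s ξ), norm_nonneg (x ξ)]
  let L : H →ₗ[ℂ] (H × H) := (s : H →ₗ[ℂ] H).prod (x : H →ₗ[ℂ] H)
  let Γ : Submodule ℂ (H × H) := LinearMap.range L
  obtain ⟨v, hv, h1, h2, h3, h4, h5, h6⟩ := exists_pisom hR Γ
    (by rintro z ⟨ξ, rfl⟩; exact hn ξ)
    (by
      rintro y hy z ⟨ξ, rfl⟩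
      refine ⟨y ξ, ?_⟩
      have e1 := mem_cent.1 hsM y hy ξ
      have e2 := mem_cent.1 hx y hy ξ
      exact Prod.ext e1.symm e2.symm)
  have hPs : (star v * v) * s = s := by
    ext ξ
    have hz : ((s ξ, x ξ) : H × H) ∈ Γ := ⟨ξ, rfl⟩
    rw [mulA, mulA, h1 _ hz]
    exact h2 _ hz
  have hvs : v * s = x := by
    ext ξ
    have hz : ((s ξ, x ξ) : H × H) ∈ Γ := ⟨ξ, rfl⟩
    rw [mulA, h1 _ hz]
  have hsP : s * (star v * v) = s := by
    have := congrArg star hPs
    rwa [star_mul, h3.isSelfAdjoint.star_eq, hsa] at this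
  refine ⟨v, hv, h3, ?_, ?_, ?_, ?_⟩
  · rw [← hvs]
    rw [mul_assoc v s, hsP]
  · intro a ha
    have hsa0 : s * a = 0 := by
      ext ξ
      have h7 : ‖s (a ξ)‖ = 0 := by
        rw [hn, ← mulA, ha]; simp
      rw [mulA]; simpa using h7
    have h8 : star a * s = 0 := by
      have := congrArg star hsa0
      rwa [star_mul, hsa, star_zero] at this
    have h9 : star a * (star v * v) = 0 := by
      apply h5
      rintro z ⟨ξ, rfl⟩
      change (star a) (s ξ) = 0
      rw [← mulA, h8]; simp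
    have h10 : (star v * v) * a = 0 := by
      have := congrArg star h9
      rwa [star_mul, h3.isSelfAdjoint.star_eq, star_star, star_zero] at this
    have h11 : star (v * a) * (v * a) = 0 := by
      rw [star_mul, mul_assoc, ← mul_assoc (star v), h10, mul_zero]
    exact star_self_zero h11
  · intro a ha
    apply h6
    rintro z ⟨ξ, rfl⟩
    change a (x ξ) = 0
    rw [← mulA, ha]; simp
  · rw [← hvs, ← mul_assoc, h4]

/-- the projection onto a closed subspace which is invariant under a self-adjoint set -/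
theorem proj_mem {R : Set (H →L[ℂ] H)} (hR : SA R) (K : Submodule ℂ H)
    [K.HasOrthogonalProjection] (hK : ∀ y ∈ R, ∀ x ∈ K, y x ∈ K) :
    K.starProjection ∈ Set.centralizer R := by
  rw [mem_cent]
  intro y hy ξ
  symm
  refine (K.eq_starProjection_of_mem_of_inner_eq_zero
    (hK y hy _ (K.starProjection_apply_mem ξ)) ?_)
  intro w hw
  rw [← map_sub, ← inner_star]
  exact K.starProjection_inner_eq_zero _ _ (hK _ (hR y hy) w hw)

/-- invariance of the closure -/
theorem closure_inv (y : H →L[ℂ] H) {K L : Submodule ℂ H} (h : ∀ x ∈ K, y x ∈ L) :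
    ∀ x ∈ K.topologicalClosure, y x ∈ L.topologicalClosure := by
  intro x hx
  have h1 : (K.topologicalClosure : Set H) ⊆ y ⁻¹' (L.topologicalClosure : Set H) := by
    rw [Submodule.topologicalClosure_coe]
    refine closure_minimal (fun w hw => ?_) (L.isClosed_topologicalClosure.preimage y.continuous)
    exact L.le_topologicalClosure (h w hw)
  exact h1 hx

/-- polar decomposition: the final projection is the projection onto the closure of the range, the
initial projection is dominated by every projection `p` with `x p = x` -/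
theorem exists_polar' {R : Set (H →L[ℂ] H)} (hR : SA R) {x : H →L[ℂ] H}
    (hx : x ∈ Set.centralizer R) :
    ∃ v ∈ Set.centralizer R, IsStarProjection (star v * v) ∧
      v * star v = (LinearMap.range (x : H →ₗ[ℂ] H)).topologicalClosure.starProjection ∧
      ∀ p : H →L[ℂ] H, x * p = x → v * p = v := by
  obtain ⟨v, hv, h1, h2, h3, h4, h5⟩ := exists_polar hR hx
  refine ⟨v, hv, h1, ?_, ?_⟩
  · set K := (LinearMap.range (x : H →ₗ[ℂ] H)).topologicalClosure with hK
    set P := K.starProjection with hP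
    have hPs : star P = P := (isStarProjection_starProjection (U := K)).isSelfAdjoint.star_eq
    have hxK : ∀ ξ, x ξ ∈ K := fun ξ => Submodule.le_topologicalClosure _ ⟨ξ, rfl⟩
    have hPx : P * x = x := by
      ext ξ
      exact K.starProjection_eq_self_iff.2 (hxK ξ)
    have hPv : P * v = v := by
      have := h4 (1 - P) (by rw [sub_mul, one_mul, hPx, sub_self])
      rw [sub_mul, one_mul, sub_eq_zero] at this
      exact this.symm
    have hq := pi_final h1.isIdempotentElem (v := v) rfl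
    have hqP : (v * star v) * P = P := by
      ext ξ
      have hcl : IsClosed {z : H | (v * star v) z = z} :=
        isClosed_eq (v * star v).continuous continuous_id
      have h6 : (K : Set H) ⊆ {z : H | (v * star v) z = z} := by
        rw [hK, Submodule.topologicalClosure_coe]
        refine closure_minimal ?_ hcl
        rintro _ ⟨η, rfl⟩
        exact congrArg (fun T : H →L[ℂ] H => T η) h5
      exact h6 (K.starProjection_apply_mem ξ)
    have hPq : P * (v * star v) = v * star v := by rw [← mul_assoc, hPv]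
    have := congrArg star hPq
    rw [star_mul, hPs, hq.isSelfAdjoint.star_eq] at this
    rw [← this, hqP]
  · intro p hp
    have := h3 (1 - p) (by rw [mul_sub, mul_one, hp, sub_self])
    rw [mul_sub, mul_one, sub_eq_zero] at this
    exact this.symm

/-- Comparison of cyclic subspaces: if `Γ ⊆ H × H` is an `R`-invariant relation whose closure is
the graph of an operator, then the projection onto the closure of the second coordinates of `Γ` is
equivalent to a subprojection of the projection onto the closure of the first coordinates. -/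
theorem exists_cyc {R : Set (H →L[ℂ] H)} (hR : SA R) (Γ : Submodule ℂ (H × H))
    (hinv : ∀ y ∈ R, ∀ z ∈ Γ, ((y z.1, y z.2) : H × H) ∈ Γ)
    (hcl : ∀ y : H, ((0, y) : H × H) ∈ Γ.topologicalClosure → y = 0) :
    ∃ w ∈ Set.centralizer R, IsStarProjection (star w * w) ∧
      w * star w = (Γ.map (LinearMap.snd ℂ H H)).topologicalClosure.starProjection ∧
      w * (Γ.map (LinearMap.fst ℂ H H)).topologicalClosure.starProjection = w := by
  let e := WithLp.prodContinuousLinearEquiv 2 ℂ H H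
  set Γ2 : Submodule ℂ (WithLp 2 (H × H)) :=
    Γ.topologicalClosure.comap (e : WithLp 2 (H × H) →ₗ[ℂ] H × H) with hΓ2
  have hcΓ : IsClosed (Γ2 : Set (WithLp 2 (H × H))) :=
    Γ.isClosed_topologicalClosure.preimage e.continuous
  have : CompleteSpace Γ2 := hcΓ.completeSpace_coe
  have hmem : ∀ z : WithLp 2 (H × H), z ∈ Γ2 ↔ ((z.fst, z.snd) : H × H) ∈ Γ.topologicalClosure :=
    fun z => Iff.rfl
  have hinv' : ∀ y ∈ R, ∀ z ∈ Γ.topologicalClosure, ((y z.1, y z.2) : H × H) ∈
      Γ.topologicalClosure := by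
    intro y hy z hz
    have hcont : Continuous (fun z : H × H => ((y z.1, y z.2) : H × H)) := by fun_prop
    have h1 : (Γ.topologicalClosure : Set (H × H)) ⊆
        (fun z : H × H => ((y z.1, y z.2) : H × H)) ⁻¹' Γ.topologicalClosure := by
      rw [Submodule.topologicalClosure_coe]
      refine closure_minimal (fun w hw => ?_) ((isClosed_closure).preimage hcont)
      exact subset_closure (hinv y hy w hw)
    exact h1 hz
  let Q : WithLp 2 (H × H) →L[ℂ] WithLp 2 (H × H) := Γ2.starProjection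
  let i1 : H →L[ℂ] WithLp 2 (H × H) :=
    (e.symm : H × H →L[ℂ] WithLp 2 (H × H)).comp (ContinuousLinearMap.inl ℂ H H)
  let p2 : WithLp 2 (H × H) →L[ℂ] H :=
    (ContinuousLinearMap.snd ℂ H H).comp (e : WithLp 2 (H × H) →L[ℂ] H × H)
  let B : H →L[ℂ] H := p2.comp (Q.comp i1)
  have hB : ∀ ξ, B ξ = (Q (WithLp.toLp 2 (ξ, 0))).snd := fun ξ => rfl
  have hinner : ∀ z w : WithLp 2 (H × H), ⟪z, w⟫_ℂ = ⟪z.fst, w.fst⟫_ℂ + ⟪z.snd, w.snd⟫_ℂ :=
    fun z w => WithLp.prod_inner_apply z w
  have hQmem : ∀ z, Q z ∈ Γ2 := fun z => Γ2.starProjection_apply_mem z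
  have hQs : ∀ z w, ⟪Q z, w⟫_ℂ = ⟪z, Q w⟫_ℂ := fun z w =>
    Submodule.inner_starProjection_left_eq_right Γ2 z w
  have hBcomm : B ∈ Set.centralizer R := by
    rw [mem_cent]
    intro y hy ξ
    let Y : (H →L[ℂ] H) → WithLp 2 (H × H) → WithLp 2 (H × H) := fun y z =>
      WithLp.toLp 2 (y z.fst, y z.snd)
    have hY : Q (Y y (WithLp.toLp 2 (ξ, 0))) = Y y (Q (WithLp.toLp 2 (ξ, 0))) := by
      refine Γ2.eq_starProjection_of_mem_of_inner_eq_zero ?_ ?_
      · exact hinv' y hy _ (hQmem _)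
      · intro w hw
        have h1 : ⟪WithLp.toLp 2 (ξ, 0) - Q (WithLp.toLp 2 (ξ, 0)), Y (star y) w⟫_ℂ = 0 :=
          Γ2.starProjection_inner_eq_zero _ _ (hinv' (star y) (hR y hy) _ hw)
        rw [hinner] at h1 ⊢
        rw [← h1]
        change ⟪y ξ - y (Q (WithLp.toLp 2 (ξ, 0))).fst, w.fst⟫_ℂ +
          ⟪y 0 - y (Q (WithLp.toLp 2 (ξ, 0))).snd, w.snd⟫_ℂ =
          ⟪ξ - (Q (WithLp.toLp 2 (ξ, 0))).fst, (star y) w.fst⟫_ℂ +
          ⟪0 - (Q (WithLp.toLp 2 (ξ, 0))).snd, (star y) w.snd⟫_ℂ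
        rw [inner_star, inner_star, map_sub, map_sub]
    have h2 : Y y (WithLp.toLp 2 (ξ, 0)) = WithLp.toLp 2 (y ξ, 0) := by
      change WithLp.toLp 2 (y ξ, y 0) = _
      rw [map_zero]
    rw [h2] at hY
    rw [hB, hB, hY]
    rfl
  have hrange : (LinearMap.range (B : H →ₗ[ℂ] H)).topologicalClosure =
      (Γ.map (LinearMap.snd ℂ H H)).topologicalClosure := by
    have horth : (LinearMap.range (B : H →ₗ[ℂ] H))ᗮ = (Γ.map (LinearMap.snd ℂ H H))ᗮ := by
      apply le_antisymm
      · intro η hη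
        have h1 : (Q (WithLp.toLp 2 (0, η))).fst = 0 := by
          have h3 : ∀ ξ : H, ⟪ξ, (Q (WithLp.toLp 2 (0, η))).fst⟫_ℂ = 0 := by
            intro ξ
            have h4 : ⟪B ξ, η⟫_ℂ = 0 := hη _ ⟨ξ, rfl⟩
            have h5 : ⟪Q (WithLp.toLp 2 (ξ, 0)), WithLp.toLp 2 (0, η)⟫_ℂ = ⟪B ξ, η⟫_ℂ := by
              rw [hinner]
              change ⟪_, (0 : H)⟫_ℂ + ⟪B ξ, η⟫_ℂ = _
              rw [inner_zero_right, zero_add]
            rw [hQs, hinner] at h5
            change ⟪ξ, (Q (WithLp.toLp 2 (0, η))).fst⟫_ℂ + ⟪(0 : H), _⟫_ℂ = _ at h5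
            rw [inner_zero_left, add_zero] at h5
            rw [h5, h4]
          exact inner_self_eq_zero.1 (h3 _)
        have h2 : (Q (WithLp.toLp 2 (0, η))).snd = 0 := by
          apply hcl
          have h3 := (hmem _).1 (hQmem (WithLp.toLp 2 (0, η)))
          rwa [h1] at h3
        rintro _ ⟨z, hz, rfl⟩
        change ⟪z.2, η⟫_ℂ = 0
        have h3 : ⟪WithLp.toLp 2 z, Q (WithLp.toLp 2 (0, η))⟫_ℂ = ⟪z.2, η⟫_ℂ := by
          rw [← hQs]
          have h4 : Q (WithLp.toLp 2 z) = WithLp.toLp 2 z :=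
            Γ2.starProjection_eq_self_iff.2 (Γ.le_topologicalClosure hz)
          rw [h4, hinner]
          change ⟪z.1, (0 : H)⟫_ℂ + ⟪z.2, η⟫_ℂ = _
          rw [inner_zero_right, zero_add]
        rw [← h3, hinner, h1, h2, inner_zero_right, inner_zero_right, add_zero]
      · intro η hη
        rintro _ ⟨ξ, rfl⟩
        change ⟪(Q (WithLp.toLp 2 (ξ, 0))).snd, η⟫_ℂ = 0
        have h1 := (hmem _).1 (hQmem (WithLp.toLp 2 (ξ, 0)))
        have hc : IsClosed {z : H × H | ⟪z.2, η⟫_ℂ = 0} :=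
          isClosed_eq (by fun_prop) continuous_const
        have h2 : (Γ.topologicalClosure : Set (H × H)) ⊆ {z : H × H | ⟪z.2, η⟫_ℂ = 0} := by
          rw [Submodule.topologicalClosure_coe]
          exact closure_minimal (fun z hz => hη _ ⟨z, hz, rfl⟩) hc
        exact h2 h1
    rw [← Submodule.orthogonal_orthogonal_eq_closure, ← Submodule.orthogonal_orthogonal_eq_closure,
      horth]
  obtain ⟨w, hw, h1, h2, h3⟩ := exists_polar' hR hBcomm
  refine ⟨w, hw, h1, ?_, ?_⟩
  · rw [h2]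
    congr 1
  · apply h3
    set K := (Γ.map (LinearMap.fst ℂ H H)).topologicalClosure with hK
    ext ξ
    have h4 : B (ξ - K.starProjection ξ) = 0 := by
      have h5 : Q (WithLp.toLp 2 (ξ - K.starProjection ξ, 0)) = 0 := by
        refine Γ2.eq_starProjection_of_mem_of_inner_eq_zero (zero_mem _) ?_
        intro z hz
        rw [sub_zero, hinner]
        change ⟪ξ - K.starProjection ξ, z.fst⟫_ℂ + ⟪(0 : H), _⟫_ℂ = 0
        rw [inner_zero_left, add_zero]
        apply K.starProjection_inner_eq_zero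
        have hc : IsClosed {z : H × H | z.1 ∈ K} :=
          (Submodule.isClosed_topologicalClosure _).preimage continuous_fst
        have h2 : (Γ.topologicalClosure : Set (H × H)) ⊆ {z : H × H | z.1 ∈ K} := by
          rw [Submodule.topologicalClosure_coe]
          exact closure_minimal (fun z hz =>
            Submodule.le_topologicalClosure _ ⟨z, hz, rfl⟩) hc
        exact h2 ((hmem _).1 hz)
      rw [hB, h5]
      rfl
    rw [map_sub, sub_eq_zero] at h4
    exact h4.symm

end Pool.Agent.K3h42.IE
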