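import Mathlib
import Pool.Agent.K3h42.IE.Pis
import Pool.Agent.K3h42.IE.Defs

/-!
The commutation theorem for a von Neumann algebra with a cyclic trace vector and a subalgebra.
-/

set_option autoImplicit false
set_option linter.unusedSectionVars false
open scoped InnerProductSpace ENNReal NNReal
open ContinuousLinearMap

namespace Pool.Agent.K3h42.IE

universe u
variable {H : Type u} [NormedAddCommGroup H] [InnerProductSpace ℂ H] [CompleteSpace H]

theorem smul_memV (N : VonNeumannAlgebra H) (c : ℂ) {a : H →L[ℂ] H} (ha : a ∈ N) : c • a ∈ N :=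
  N.toStarSubalgebra.smul_mem ha c

theorem mem_iff_comm (M : VonNeumannAlgebra H) (x : H →L[ℂ] H) :
    x ∈ M ↔ ∀ y ∈ M.commutant, y * x = x * y := by
  conv_lhs => rw [← M.commutant_commutant]
  exact VonNeumannAlgebra.mem_commutant_iff

theorem mem_comm_iff (M : VonNeumannAlgebra H) (y : H →L[ℂ] H) :
    y ∈ M.commutant ↔ ∀ a ∈ M, ∀ ξ, a (y ξ) = y (a ξ) := by
  rw [VonNeumannAlgebra.mem_commutant_iff]
  constructor
  · intro h a ha ξ
    exact congrArg (fun T : H →L[ℂ] H => T ξ) (h a ha)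
  · intro h a ha
    ext ξ
    exact h a ha ξ

namespace TracialSystem

variable (S : TracialSystem H)

theorem ext_cyc {X : Type*} [TopologicalSpace X] [T2Space X] {f g : H → X} (hf : Continuous f)
    (hg : Continuous g) (h : ∀ a ∈ S.A, f (a S.Ω) = g (a S.Ω)) : f = g := by
  refine hf.ext_on S.cyclic hg ?_
  rintro _ ⟨a, ha, rfl⟩
  exact h a ha

theorem Jc : Continuous S.J := S.J.continuous

theorem J_Ω : S.J S.Ω = S.Ω := by
  have := S.J_apply 1 (one_mem _)
  simpa using this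

theorem J_J (x : H) : S.J (S.J x) = x := by
  have := S.ext_cyc (f := fun x => S.J (S.J x)) (g := fun x => x) (S.Jc.comp S.Jc) continuous_id
    (fun a ha => by rw [S.J_apply a ha, S.J_apply _ (star_mem ha), star_star])
  exact congrFun this x

theorem norm_star_Ω {a : H →L[ℂ] H} (ha : a ∈ S.A) {b : H →L[ℂ] H} (hb : b ∈ S.A) :
    ⟪(star a) S.Ω, (star b) S.Ω⟫_ℂ = ⟪b S.Ω, a S.Ω⟫_ℂ := by
  rw [star_inner, ← mulA, ← inner_star, ← mulA]
  exact S.tracial a ha _ (star_mem hb)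

theorem J_inner (x y : H) : ⟪S.J x, S.J y⟫_ℂ = ⟪y, x⟫_ℂ := by
  have h1 : ∀ b ∈ S.A, ∀ x, ⟪S.J x, S.J (b S.Ω)⟫_ℂ = ⟪b S.Ω, x⟫_ℂ := by
    intro b hb x
    have := S.ext_cyc (f := fun x => ⟪S.J x, S.J (b S.Ω)⟫_ℂ) (g := fun x => ⟪b S.Ω, x⟫_ℂ)
      (S.Jc.inner continuous_const) (continuous_const.inner continuous_id) (fun a ha => by
        rw [S.J_apply a ha, S.J_apply b hb]
        exact S.norm_star_Ω ha hb)
    exact congrFun this x
  have := S.ext_cyc (f := fun y => ⟪S.J x, S.J y⟫_ℂ) (g := fun y => ⟪y, x⟫_ℂ)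
    (continuous_const.inner S.Jc) (continuous_id.inner continuous_const)
    (fun a ha => h1 a ha x)
  exact congrFun this y

theorem J_inner' (x y : H) : ⟪S.J x, y⟫_ℂ = ⟪S.J y, x⟫_ℂ := by
  conv_lhs => rw [← S.J_J y]
  exact S.J_inner _ _

/-- `J` as a continuous conjugate-linear map -/
noncomputable def Jl : H →L⋆[ℂ] H := (S.J.toContinuousLinearEquiv : H →L⋆[ℂ] H)

/-- the right multiplication `J f* J` -/
noncomputable def Rt (f : H →L[ℂ] H) : H →L[ℂ] H := S.Jl.comp ((star f).comp S.Jl)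

theorem Rt_def (f : H →L[ℂ] H) (x : H) : S.Rt f x = S.J ((star f) (S.J x)) := rfl

theorem J_inner'' (x y : H) : ⟪x, S.J y⟫_ℂ = ⟪y, S.J x⟫_ℂ := by
  conv_lhs => rw [← S.J_J x]
  exact S.J_inner _ _

theorem star_Rt (f : H →L[ℂ] H) : star (S.Rt f) = S.Rt (star f) := by
  ext x
  refine ext_inner_right ℂ fun y => ?_
  rw [star_inner, Rt_def, Rt_def, star_star, S.J_inner'', star_inner, S.J_inner']

theorem Rt_Ω {a : H →L[ℂ] H} (ha : a ∈ S.A) {f : H →L[ℂ] H} (hf : f ∈ S.A) :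
    S.Rt f (a S.Ω) = a (f S.Ω) := by
  rw [Rt_def, S.J_apply a ha, ← mulA, S.J_apply _ (mul_mem (star_mem hf) (star_mem ha)), star_mul,
    star_star, star_star]
  rfl

theorem Rt_Ω' {f : H →L[ℂ] H} (hf : f ∈ S.A) : S.Rt f S.Ω = f S.Ω := by
  have := S.Rt_Ω (one_mem S.A) hf
  simpa using this

theorem Rt_comm {a : H →L[ℂ] H} (ha : a ∈ S.A) {f : H →L[ℂ] H} (hf : f ∈ S.A) (x : H) :
    a (S.Rt f x) = S.Rt f (a x) := by
  have := S.ext_cyc (f := fun x => a (S.Rt f x)) (g := fun x => S.Rt f (a x))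
    (a.continuous.comp (S.Rt f).continuous) ((S.Rt f).continuous.comp a.continuous)
    (fun b hb => by
      rw [S.Rt_Ω hb hf]
      exact (S.Rt_Ω (mul_mem ha hb) hf).symm)
  exact congrFun this x

theorem Rt_mem {f : H →L[ℂ] H} (hf : f ∈ S.A) : S.Rt f ∈ S.A.commutant := by
  rw [mem_comm_iff]
  intro a ha ξ
  exact S.Rt_comm ha hf ξ

theorem Rt_mul (f g : H →L[ℂ] H) (x : H) : S.Rt g (S.Rt f x) = S.Rt (f * g) x := by
  rw [Rt_def, Rt_def, S.J_J, Rt_def, star_mul]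
  rfl

/-- the right multiplications by the elements of `F` -/
def RF (F : VonNeumannAlgebra H) : Set (H →L[ℂ] H) := {y | ∃ f ∈ F, y = S.Rt f}

theorem RF_SA (F : VonNeumannAlgebra H) : SA (S.RF F) := by
  rintro _ ⟨f, hf, rfl⟩
  exact ⟨star f, star_mem hf, S.star_Rt f⟩

variable {S}

/-- the vectors `f Ω` -/
def vec (S : TracialSystem H) (F : VonNeumannAlgebra H) : Submodule ℂ H where
  carrier := {x : H | ∃ f ∈ F, x = f S.Ω}
  add_mem' := by
    rintro _ _ ⟨f, hf, rfl⟩ ⟨g, hg, rfl⟩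
    exact ⟨f + g, add_mem hf hg, rfl⟩
  zero_mem' := ⟨0, zero_mem F, rfl⟩
  smul_mem' := by
    rintro c _ ⟨f, hf, rfl⟩
    exact ⟨c • f, smul_memV F c hf, rfl⟩

theorem sub_eq (F : VonNeumannAlgebra H) : S.sub F = (vec S F).topologicalClosure := by
  unfold sub
  congr 1
  exact Submodule.span_eq (vec S F)

theorem f_mem_sub {F : VonNeumannAlgebra H} {f : H →L[ℂ] H} (hf : f ∈ F) : f S.Ω ∈ S.sub F := by
  rw [sub_eq]
  exact Submodule.le_topologicalClosure _ ⟨f, hf, rfl⟩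

theorem Ω_mem_sub (F : VonNeumannAlgebra H) : S.Ω ∈ S.sub F := by
  have := f_mem_sub (S := S) (one_mem F)
  simpa using this

/-- closed conditions on `H_F` -/
theorem sub_ext {F : VonNeumannAlgebra H} {X : Type*} [TopologicalSpace X] [T2Space X] {f g : H → X}
    (hf : Continuous f) (hg : Continuous g) (h : ∀ a ∈ F, f (a S.Ω) = g (a S.Ω)) :
    ∀ x ∈ S.sub F, f x = g x := by
  intro x hx
  have hc : IsClosed {x | f x = g x} := isClosed_eq hf hg
  have h1 : (S.sub F : Set H) ⊆ {x | f x = g x} := by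
    rw [sub_eq, Submodule.topologicalClosure_coe]
    refine closure_minimal ?_ hc
    rintro _ ⟨a, ha, rfl⟩
    exact h a ha
  exact h1 hx

theorem sub_maps {F G : VonNeumannAlgebra H} {g : H → H}
    (hg : Continuous g) (h : ∀ a ∈ F, g (a S.Ω) ∈ S.sub G) :
    ∀ x ∈ S.sub F, g x ∈ S.sub G := by
  intro x hx
  have hc : IsClosed {x | g x ∈ S.sub G} := by
    refine IsClosed.preimage hg ?_
    rw [sub_eq]
    exact Submodule.isClosed_topologicalClosure _
  have h1 : (S.sub F : Set H) ⊆ {x | g x ∈ S.sub G} := by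
    rw [sub_eq, Submodule.topologicalClosure_coe]
    refine closure_minimal ?_ hc
    rintro _ ⟨a, ha, rfl⟩
    exact h a ha
  exact h1 hx

theorem sub_mono {F G : VonNeumannAlgebra H} (h : F ≤ G) : S.sub F ≤ S.sub G :=
  fun x hx => sub_maps (S := S) (g := id) continuous_id (fun _ ha => f_mem_sub (h ha)) x hx

/-- a vector of `H_F` orthogonal to `F Ω` vanishes -/
theorem eq_of_inner {F : VonNeumannAlgebra H} {x y : H} (hx : x ∈ S.sub F) (hy : y ∈ S.sub F)
    (h : ∀ f ∈ F, ⟪x, f S.Ω⟫_ℂ = ⟪y, f S.Ω⟫_ℂ) : x = y := by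
  have h1 : ∀ z ∈ S.sub F, ⟪x, z⟫_ℂ = ⟪y, z⟫_ℂ :=
    sub_ext (continuous_const.inner continuous_id) (continuous_const.inner continuous_id) h
  have h2 : ⟪x - y, x - y⟫_ℂ = 0 := by
    rw [inner_sub_left, h1 _ (Submodule.sub_mem _ hx hy), sub_self]
  exact sub_eq_zero.1 (inner_self_eq_zero.1 h2)

theorem J_sub {F : VonNeumannAlgebra H} (hF : F ≤ S.A) : ∀ x ∈ S.sub F, S.J x ∈ S.sub F :=
  sub_maps S.Jc fun a ha => by
    rw [S.J_apply a (hF ha)]
    exact f_mem_sub (star_mem ha)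

theorem Rt_sub {F : VonNeumannAlgebra H} (hF : F ≤ S.A) {f : H →L[ℂ] H} (hf : f ∈ F) :
    ∀ x ∈ S.sub F, S.Rt f x ∈ S.sub F :=
  sub_maps (S.Rt f).continuous fun a ha => by
    rw [S.Rt_Ω (hF ha) (hF hf), ← mulA]
    exact f_mem_sub (mul_mem ha hf)

theorem F_sub {F : VonNeumannAlgebra H} {f : H →L[ℂ] H} (hf : f ∈ F) :
    ∀ x ∈ S.sub F, f x ∈ S.sub F :=
  sub_maps f.continuous fun a ha => by
    rw [← mulA]
    exact f_mem_sub (mul_mem hf ha)

theorem e_apply_mem (F : VonNeumannAlgebra H) (x : H) : S.e F x ∈ S.sub F :=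
  (S.sub F).starProjection_apply_mem x

theorem e_eq {F : VonNeumannAlgebra H} {x : H} (hx : x ∈ S.sub F) : S.e F x = x :=
  (S.sub F).starProjection_eq_self_iff.2 hx

theorem e_eq_iff {F : VonNeumannAlgebra H} {x : H} : S.e F x = x ↔ x ∈ S.sub F :=
  (S.sub F).starProjection_eq_self_iff

theorem e_Ω (F : VonNeumannAlgebra H) : S.e F S.Ω = S.Ω := e_eq (Ω_mem_sub F)

theorem e_proj (F : VonNeumannAlgebra H) : IsStarProjection (S.e F) :=
  isStarProjection_starProjection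

theorem e_star (F : VonNeumannAlgebra H) : star (S.e F) = S.e F :=
  (e_proj F).isSelfAdjoint.star_eq

theorem e_mul (F : VonNeumannAlgebra H) : S.e F * S.e F = S.e F := (e_proj F).isIdempotentElem

theorem e_cent {F : VonNeumannAlgebra H} (hF : F ≤ S.A) :
    S.e F ∈ Set.centralizer (S.RF F) := by
  refine proj_mem (S.RF_SA F) _ ?_
  rintro _ ⟨f, hf, rfl⟩ x hx
  exact Rt_sub hF hf x hx

theorem e_comm {F : VonNeumannAlgebra H} {f : H →L[ℂ] H} (hf : f ∈ F) :
    f * S.e F = S.e F * f := by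
  have h1 : S.e F ∈ Set.centralizer (F : Set (H →L[ℂ] H)) :=
    proj_mem (R := (F : Set (H →L[ℂ] H))) (fun y hy => star_mem hy) _
      (fun y hy x hx => F_sub hy x hx)
  exact (Set.mem_centralizer_iff.1 h1) f hf

theorem A_cent {F : VonNeumannAlgebra H} (hF : F ≤ S.A) {a : H →L[ℂ] H} (ha : a ∈ S.A) :
    a ∈ Set.centralizer (S.RF F) := by
  rw [mem_cent]
  rintro _ ⟨f, hf, rfl⟩ x
  exact (S.Rt_comm ha (hF hf) x).symm

/-- `J t Ω = t* Ω` for `t` on `H_F` commuting with `F` -/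
theorem J_left {F : VonNeumannAlgebra H} (hF : F ≤ S.A) {t : H →L[ℂ] H}
    (ht1 : t S.Ω ∈ S.sub F) (ht2 : (star t) S.Ω ∈ S.sub F)
    (ht : ∀ f ∈ F, ∀ x, f (t x) = t (f x)) : S.J (t S.Ω) = (star t) S.Ω := by
  refine eq_of_inner (J_sub hF _ ht1) ht2 fun f hf => ?_
  rw [S.J_inner', S.J_apply f (hF hf), star_inner, star_inner, ht f hf]

/-- `J s Ω = s* Ω` for `s` on `H_F` commuting with the right multiplications -/
theorem J_right {F : VonNeumannAlgebra H} (hF : F ≤ S.A) {s : H →L[ℂ] H}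
    (hs1 : s S.Ω ∈ S.sub F) (hs2 : (star s) S.Ω ∈ S.sub F)
    (hs : s ∈ Set.centralizer (S.RF F)) : S.J (s S.Ω) = (star s) S.Ω := by
  refine eq_of_inner (J_sub hF _ hs1) hs2 fun f hf => ?_
  have h1 : s (f S.Ω) = S.Rt f (s S.Ω) := by
    rw [← S.Rt_Ω' (hF hf)]
    exact (mem_cent.1 hs _ ⟨f, hf, rfl⟩ _).symm
  rw [S.J_inner', S.J_apply f (hF hf), ← S.Rt_Ω' (star_mem (hF hf)), ← S.star_Rt, star_inner,
    star_inner, h1]

theorem star_sub_of {s : H →L[ℂ] H} {F : VonNeumannAlgebra H} (h : S.e F * s * S.e F = s) :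
    s S.Ω ∈ S.sub F ∧ (star s) S.Ω ∈ S.sub F := by
  constructor
  · rw [← h]; exact e_apply_mem F _
  · rw [← h, star_mul, star_mul, e_star, ← mul_assoc]; exact e_apply_mem F _

/-- the commutation theorem -/
theorem comm_thm {F : VonNeumannAlgebra H} (hF : F ≤ S.A) {s t : H →L[ℂ] H}
    (hse : S.e F * s * S.e F = s) (hte : S.e F * t * S.e F = t)
    (hs : s ∈ Set.centralizer (S.RF F)) (ht : ∀ f ∈ F, ∀ x, f (t x) = t (f x)) :
    s * t = t * s := by
  obtain ⟨s1, s2⟩ := star_sub_of hse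
  obtain ⟨t1, t2⟩ := star_sub_of hte
  have Js := J_right hF s1 s2 hs
  have Jt := J_left hF t1 t2 ht
  have hsf : ∀ f ∈ F, s (f S.Ω) = S.Rt f (s S.Ω) := by
    intro f hf
    rw [← S.Rt_Ω' (hF hf)]
    exact (mem_cent.1 hs _ ⟨f, hf, rfl⟩ _).symm
  have hs' : star s ∈ Set.centralizer (S.RF F) := cent_star (S.RF_SA F) hs
  have hsf' : ∀ f ∈ F, (star s) (f S.Ω) = S.Rt f ((star s) S.Ω) := by
    intro f hf
    rw [← S.Rt_Ω' (hF hf)]
    exact (mem_cent.1 hs' _ ⟨f, hf, rfl⟩ _).symm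
  have ht' : ∀ f ∈ F, ∀ x, f ((star t) x) = (star t) (f x) := by
    intro f hf x
    refine ext_inner_left ℂ fun y => ?_
    rw [← star_star f, inner_star, inner_star, inner_star, inner_star, ht _ (star_mem hf)]
    
  have key : ∀ f ∈ F, ∀ g ∈ F, ⟪(s * t) (f S.Ω), g S.Ω⟫_ℂ = ⟪(t * s) (f S.Ω), g S.Ω⟫_ℂ := by
    intro f hf g hg
    have e1 : ⟪(s * t) (f S.Ω), g S.Ω⟫_ℂ = ⟪s S.Ω, S.Rt (star f) (g ((star t) S.Ω))⟫_ℂ := by
      rw [mulA, ← inner_star, ← ht f hf, hsf' g hg, ← Js, ← S.J_J (t S.Ω), Jt]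
      -- ⟪f J t*Ω, Rt g J sΩ⟫
      have h2 : f (S.J ((star t) S.Ω)) = S.J (S.Rt (star f) ((star t) S.Ω)) := by
        rw [Rt_def, S.J_J, star_star]
      have h3 : S.Rt g (S.J (s S.Ω)) = S.J ((star g) (s S.Ω)) := by
        rw [Rt_def, S.J_J]
      rw [h2, h3, S.J_inner, star_inner]
      congr 1
      exact S.Rt_comm (hF hg) (star_mem (hF hf)) _
    have e2 : ⟪(t * s) (f S.Ω), g S.Ω⟫_ℂ = ⟪s S.Ω, S.Rt (star f) (g ((star t) S.Ω))⟫_ℂ := by
      rw [mulA, ← inner_star, ← ht' g hg, hsf f hf, ← S.star_Rt, inner_star]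
    rw [e1, e2]
  have key2 : ∀ f ∈ F, (s * t) (f S.Ω) = (t * s) (f S.Ω) := by
    intro f hf
    refine eq_of_inner ?_ ?_ (key f hf)
    · rw [mulA, ← hse]; exact e_apply_mem F _
    · rw [mulA, ← hte]; exact e_apply_mem F _
  have hte' : t * S.e F = t := by
    conv_lhs => rw [← hte]
    rw [mul_assoc, e_mul, hte]
  have hse' : s * S.e F = s := by
    conv_lhs => rw [← hse]
    rw [mul_assoc, e_mul, hse]
  ext x
  have h4 : ∀ x ∈ S.sub F, (s * t) x = (t * s) x :=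
    sub_ext (s * t).continuous (t * s).continuous key2
  have h5 : (s * t) x = (s * t) (S.e F x) := by
    conv_lhs => rw [← hte']
    rfl
  have h6 : (t * s) x = (t * s) (S.e F x) := by
    conv_lhs => rw [← hse']
    rfl
  rw [h5, h6, h4 _ (e_apply_mem F x)]

/-- an element of `A` with `a Ω ∈ H_F` is in `F` -/
theorem mem_of_Ω {F : VonNeumannAlgebra H} (hF : F ≤ S.A) {a : H →L[ℂ] H} (ha : a ∈ S.A)
    (h : a S.Ω ∈ S.sub F) : a ∈ F := by
  rw [mem_iff_comm]
  intro y hy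
  rw [mem_comm_iff] at hy
  have key : ∀ b ∈ S.A, ∀ c ∈ S.A, ⟪c S.Ω, y (a (b S.Ω))⟫_ℂ = ⟪c S.Ω, a (y (b S.Ω))⟫_ℂ := by
    intro b hb c hc
    have h1 : ∀ x ∈ S.sub F, ⟪(star y) (c S.Ω), S.Rt b x⟫_ℂ = ⟪S.Rt c (S.J x), y (b S.Ω)⟫_ℂ := by
      refine sub_ext (continuous_const.inner (S.Rt b).continuous)
        (((S.Rt c).continuous.comp S.Jc).inner continuous_const) fun f hf => ?_
      rw [S.Rt_Ω (hF hf) hb, S.J_apply f (hF hf), S.Rt_Ω (star_mem (hF hf)) hc, star_inner,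
        star_inner, hy f hf]
    have h2 := h1 _ h
    rwa [S.Rt_Ω ha hb, S.J_apply a ha, S.Rt_Ω (star_mem ha) hc, star_inner, star_inner] at h2
  have key2 : ∀ b ∈ S.A, y (a (b S.Ω)) = a (y (b S.Ω)) := by
    intro b hb
    refine ext_inner_left ℂ fun z => ?_
    have := S.ext_cyc (f := fun z => ⟪z, y (a (b S.Ω))⟫_ℂ) (g := fun z => ⟪z, a (y (b S.Ω))⟫_ℂ)
      (continuous_id.inner continuous_const) (continuous_id.inner continuous_const)
      (fun c hc => key b hb c hc)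
    exact congrFun this z
  ext x
  have := S.ext_cyc (f := fun x => y (a x)) (g := fun x => a (y x))
    (y.continuous.comp a.continuous) (a.continuous.comp y.continuous) key2
  exact congrFun this x

/-- `A' = J A J` -/
theorem comm_eq_Rt {y : H →L[ℂ] H} (hy : y ∈ S.A.commutant) : ∃ a ∈ S.A, y = S.Rt a := by
  have hJ : ∀ t ∈ S.A.commutant, S.J (t S.Ω) = (star t) S.Ω := by
    intro t ht
    have hs : S.sub S.A = ⊤ := by
      rw [eq_top_iff]
      intro x _
      rw [sub_eq]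
      change x ∈ closure (vec S S.A : Set H)
      exact S.cyclic.closure_eq.ge (Set.mem_univ x)
    exact J_left le_rfl (hs ▸ Submodule.mem_top) (hs ▸ Submodule.mem_top)
      fun f hf x => (mem_comm_iff _ _).1 ht f hf x
  have hJt : ∀ t ∈ S.A.commutant, ∀ s ∈ S.A.commutant, S.J (t (S.J (s S.Ω))) = s ((star t) S.Ω) := by
    intro t ht s hs
    rw [hJ s hs, ← mulA, hJ _ (mul_mem ht (star_mem hs)), star_mul, star_star]
    rfl
  refine ⟨S.Rt y, ?_, ?_⟩
  · rw [mem_iff_comm]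
    intro r hr
    ext x
    have := S.ext_cyc (f := fun x => r (S.Rt y x)) (g := fun x => S.Rt y (r x))
      (r.continuous.comp (S.Rt y).continuous) ((S.Rt y).continuous.comp r.continuous)
      (fun a ha => by
        have h1 := hJt _ (star_mem hy) _ (S.Rt_mem ha)
        have h2 := hJt _ (star_mem hy) _ (mul_mem hr (S.Rt_mem ha))
        rw [← S.Rt_Ω' ha, Rt_def S y, Rt_def S y, h1, star_star, ← mulA r (S.Rt a) S.Ω, h2,
          star_star]
        rfl)
    exact congrFun this x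
  · ext x
    rw [Rt_def, S.star_Rt, Rt_def, S.J_J, S.J_J, star_star]

/-- the basic construction is the commutant of the right multiplications -/
theorem mem_basic_iff {F : VonNeumannAlgebra H} (hF : F ≤ S.A) {x : H →L[ℂ] H} :
    x ∈ S.basic F ↔ x ∈ Set.centralizer (S.RF F) := by
  constructor
  · intro hx
    refine Set.centralizer_subset (S := S.RF F) ?_ hx
    rintro _ ⟨f, hf, rfl⟩
    rw [Set.mem_centralizer_iff]
    rintro a (ha | ha)
    · ext ξ
      exact S.Rt_comm ha (hF hf) ξ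
    · rw [Set.mem_singleton_iff.1 ha]
      ext ξ
      exact (mem_cent.1 (e_cent hF) _ ⟨f, hf, rfl⟩ ξ).symm
  · intro hx
    change x ∈ Set.centralizer _
    rw [Set.mem_centralizer_iff]
    intro y hy
    rw [Set.mem_centralizer_iff] at hy
    have h1 : y ∈ S.A.commutant := by
      rw [VonNeumannAlgebra.mem_commutant_iff]
      exact fun a ha => hy a (Or.inl ha)
    obtain ⟨a, ha, rfl⟩ := comm_eq_Rt h1
    have h2 : S.e F * S.Rt a = S.Rt a * S.e F := hy _ (Or.inr rfl)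
    have h3 : a ∈ F := by
      refine mem_of_Ω hF ha ?_
      rw [← S.Rt_Ω' ha, ← e_Ω F, ← mulA, ← h2]
      exact e_apply_mem F _
    exact Set.mem_centralizer_iff.1 hx _ ⟨a, h3, rfl⟩

end TracialSystem

end Pool.Agent.K3h42.IE
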