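import Mathlib
import Pool.Agent.K3h42.IE.Pis

/-!
Normal traces on the commutant of a self-adjoint set, evaluated at projections.
-/

set_option autoImplicit false
set_option linter.unusedSectionVars false
open scoped InnerProductSpace ENNReal NNReal
open ContinuousLinearMap Filter Topology

namespace Pool.Agent.K3h42.IE

universe u
variable {H : Type u} [NormedAddCommGroup H] [InnerProductSpace ℂ H] [CompleteSpace H]

/-- a normal trace on the commutant of `R` -/
structure Tr (R : Set (H →L[ℂ] H)) (τ : (H →L[ℂ] H) → ℝ≥0∞) : Prop where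
  add : ∀ x ∈ Set.centralizer R, ∀ y ∈ Set.centralizer R, 0 ≤ x → 0 ≤ y → τ (x + y) = τ x + τ y
  trace : ∀ x ∈ Set.centralizer R, τ (star x * x) = τ (x * star x)
  normal : ∀ D : Set (H →L[ℂ] H), (∀ x ∈ D, x ∈ Set.centralizer R ∧ 0 ≤ x) → D.Nonempty →
    DirectedOn (· ≤ ·) D → ∀ y, IsLUB D y → τ y = ⨆ x ∈ D, τ x

theorem proj_nonneg {p : H →L[ℂ] H} (hp : IsStarProjection p) : 0 ≤ p := by
  have h1 := star_mul_self_nonneg p
  rwa [hp.isSelfAdjoint.star_eq, hp.isIdempotentElem.eq] at h1

theorem proj_le {p q : H →L[ℂ] H} (hp : IsStarProjection p) (hq : IsStarProjection q)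
    (h : q * p = p) : p ≤ q := by
  have h' : p * q = p := by
    have := congrArg star h
    rwa [star_mul, hp.isSelfAdjoint.star_eq, hq.isSelfAdjoint.star_eq] at this
  rw [← sub_nonneg]
  have h1 : IsStarProjection (q - p) := by
    refine ⟨?_, ?_⟩
    · change (q - p) * (q - p) = q - p
      rw [sub_mul, mul_sub, mul_sub, hq.isIdempotentElem.eq, h, h', hp.isIdempotentElem.eq]
      abel
    · exact hq.isSelfAdjoint.sub hp.isSelfAdjoint
  exact proj_nonneg h1

namespace Tr

variable {R : Set (H →L[ℂ] H)} {τ : (H →L[ℂ] H) → ℝ≥0∞} (h : Tr R τ)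

include h

theorem mono {x y : H →L[ℂ] H} (hx : x ∈ Set.centralizer R) (hy : y ∈ Set.centralizer R)
    (hx0 : 0 ≤ x) (hxy : x ≤ y) : τ x ≤ τ y := by
  have h1 : y = x + (y - x) := by abel
  rw [h1, h.add x hx (y - x) (cent_sub hy hx) hx0 (sub_nonneg.2 hxy)]
  exact le_self_add

/-- a partial isometry -/
theorem pis {w q : H →L[ℂ] H} (hw : w ∈ Set.centralizer R) (hq : q ∈ Set.centralizer R)
    (hR : SA R) (hw1 : IsStarProjection (star w * w)) (hq1 : IsStarProjection q)
    (hwq : w * q = w) : τ (w * star w) ≤ τ q := by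
  rw [← h.trace w hw]
  refine h.mono (cent_mul (cent_star hR hw) hw) hq (proj_nonneg hw1) (proj_le hw1 hq1 ?_)
  have h1 := congrArg star hwq
  rw [star_mul, hq1.isSelfAdjoint.star_eq] at h1
  rw [← mul_assoc, h1]

/-- the join of two closed invariant subspaces -/
theorem join (hR : SA R) (K L : Submodule ℂ H) [K.HasOrthogonalProjection]
    [L.HasOrthogonalProjection] (hK : ∀ y ∈ R, ∀ x ∈ K, y x ∈ K)
    (hL : ∀ y ∈ R, ∀ x ∈ L, y x ∈ L) :
    τ (K ⊔ L).topologicalClosure.starProjection ≤ τ K.starProjection + τ L.starProjection := by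
  set P := K.starProjection with hP
  set Q := L.starProjection with hQ
  have hPm : P ∈ Set.centralizer R := proj_mem hR K hK
  have hQm : Q ∈ Set.centralizer R := proj_mem hR L hL
  have hPp : IsStarProjection P := isStarProjection_starProjection
  have hQp : IsStarProjection Q := isStarProjection_starProjection
  set T := (1 - Q) * P with hT
  have hTm : T ∈ Set.centralizer R := cent_mul (cent_sub cent_one hQm) hPm
  obtain ⟨v, hv, h1, h2, h3⟩ := exists_polar' hR hTm
  set E := v * star v with hE
  have hEp : IsStarProjection E := pi_final h1.isIdempotentElem rfl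
  have hET : E * T = T := by
    ext ξ
    rw [mulA, h2]
    exact Submodule.starProjection_eq_self_iff.2
      (Submodule.le_topologicalClosure _ ⟨ξ, rfl⟩)
  have hQT : Q * T = 0 := by
    rw [hT, ← mul_assoc, mul_sub, mul_one, hQp.isIdempotentElem.eq, sub_self, zero_mul]
  have hQE : Q * E = 0 := by
    ext ξ
    rw [mulA, h2]
    have hc : IsClosed {z : H | Q z = 0} := isClosed_eq Q.continuous continuous_const
    have h5 : ((LinearMap.range (T : H →ₗ[ℂ] H)).topologicalClosure : Set H) ⊆
        {z : H | Q z = 0} := by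
      rw [Submodule.topologicalClosure_coe]
      refine closure_minimal ?_ hc
      rintro _ ⟨η, rfl⟩
      exact congrArg (fun S : H →L[ℂ] H => S η) hQT
    exact h5 (Submodule.starProjection_apply_mem _ ξ)
  have hEQ : E * Q = 0 := by
    have := congrArg star hQE
    rwa [star_mul, hEp.isSelfAdjoint.star_eq, hQp.isSelfAdjoint.star_eq, star_zero] at this
  have hsum : IsStarProjection (Q + E) := by
    refine ⟨?_, hQp.isSelfAdjoint.add hEp.isSelfAdjoint⟩
    change (Q + E) * (Q + E) = Q + E
    rw [add_mul, mul_add, mul_add, hQp.isIdempotentElem.eq, hQE, hEQ, hEp.isIdempotentElem.eq]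
    abel
  set W := (K ⊔ L).topologicalClosure with hW
  have hfix : ∀ x ∈ W, (Q + E) x = x := by
    intro x hx
    have hc : IsClosed {z : H | (Q + E) z = z} := isClosed_eq (Q + E).continuous continuous_id
    have h5 : (W : Set H) ⊆ {z : H | (Q + E) z = z} := by
      rw [hW, Submodule.topologicalClosure_coe]
      refine closure_minimal ?_ hc
      intro z hz
      obtain ⟨k, hk, l, hl, rfl⟩ := Submodule.mem_sup.1 hz
      have e1 : P k = k := K.starProjection_eq_self_iff.2 hk
      have e2 : Q l = l := L.starProjection_eq_self_iff.2 hl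
      have e3 : (Q + E) l = l := by
        change Q l + E l = l
        have : E l = 0 := by
          rw [← e2, ← mulA, hEQ]; rfl
        rw [this, e2, add_zero]
      have e4 : (Q + E) k = k := by
        have e5 : k = Q k + T k := by
          rw [hT, mulA, e1]
          change k = Q k + (k - Q k)
          abel
        have e6 : (Q + E) (Q k) = Q k := by
          change Q (Q k) + E (Q k) = Q k
          rw [← mulA Q Q, ← mulA E Q, hQp.isIdempotentElem.eq, hEQ]
          simp
        have e7 : (Q + E) (T k) = T k := by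
          change Q (T k) + E (T k) = T k
          rw [← mulA Q T, ← mulA E T, hQT, hET]
          simp
        conv_lhs => rw [e5]
        rw [map_add, e6, e7, ← e5]
      change (Q + E) (k + l) = k + l
      rw [map_add, e3, e4]
    exact h5 hx
  have hinvW : ∀ y ∈ R, ∀ x ∈ W, y x ∈ W := by
    intro y hy
    refine closure_inv y fun x hx => ?_
    obtain ⟨k, hk, l, hl, rfl⟩ := Submodule.mem_sup.1 hx
    rw [map_add]
    exact Submodule.add_mem_sup (hK y hy k hk) (hL y hy l hl)
  have hWm : W.starProjection ∈ Set.centralizer R := proj_mem hR W hinvW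
  have hWp : IsStarProjection W.starProjection := isStarProjection_starProjection
  have hle : W.starProjection ≤ Q + E := by
    refine proj_le hWp hsum ?_
    ext ξ
    exact hfix _ (W.starProjection_apply_mem ξ)
  have hEm : E ∈ Set.centralizer R := cent_mul hv (cent_star hR hv)
  calc τ W.starProjection ≤ τ (Q + E) :=
        h.mono hWm (cent_add hQm hEm) (proj_nonneg hWp) hle
    _ = τ Q + τ E := h.add Q hQm E hEm (proj_nonneg hQp) (proj_nonneg hEp)
    _ ≤ τ Q + τ P := by
        gcongr
        refine h.pis hv hPm hR h1 hPp (h3 P ?_)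
        rw [hT, mul_assoc, hPp.isIdempotentElem.eq]
    _ = τ P + τ Q := add_comm _ _

/-- monotone unions -/
theorem iSup_le (hR : SA R) {ι : Type*} [Preorder ι] [IsDirectedOrder ι] [Nonempty ι]
    (K : ι → Submodule ℂ H)
    [∀ i, (K i).HasOrthogonalProjection] (hK : ∀ i, ∀ y ∈ R, ∀ x ∈ K i, y x ∈ K i)
    (hmono : Monotone K) {C : ℝ≥0∞} (hC : ∀ i, τ (K i).starProjection ≤ C) :
    τ (⨆ i, K i).topologicalClosure.starProjection ≤ C := by
  set W := (⨆ i, K i).topologicalClosure with hW
  set D : Set (H →L[ℂ] H) := Set.range fun i => (K i).starProjection with hD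
  have hle : ∀ i, K i ≤ W := fun i => (le_iSup K i).trans (Submodule.le_topologicalClosure _)
  have hlub : IsLUB D W.starProjection := by
    constructor
    · rintro _ ⟨i, rfl⟩
      exact Submodule.starProjection_le_starProjection_iff.2 (hle i)
    · intro B hB
      have hB' : ∀ i, ((B - (K i).starProjection)).IsPositive := fun i =>
        (ContinuousLinearMap.le_def _ _).1 (hB ⟨i, rfl⟩)
      rw [ContinuousLinearMap.le_def, ContinuousLinearMap.isPositive_def']
      have hWsa : IsSelfAdjoint W.starProjection :=
        (isStarProjection_starProjection (U := W)).isSelfAdjoint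
      constructor
      · obtain ⟨i⟩ := ‹Nonempty ι›
        have h1 : IsSelfAdjoint (B - (K i).starProjection) := (hB' i).isSelfAdjoint
        have h2 : IsSelfAdjoint (K i).starProjection :=
          (isStarProjection_starProjection (U := K i)).isSelfAdjoint
        have h3 : B = (B - (K i).starProjection) + (K i).starProjection := by abel
        have h4 : IsSelfAdjoint B := by
          rw [h3]; exact h1.add h2
        exact h4.sub hWsa
      · intro x
        have ht := Submodule.starProjection_tendsto_closure_iSup K hmono x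
        have ht2 : Tendsto (fun i => RCLike.re ⟪B x - (K i).starProjection x, x⟫_ℂ) atTop
            (𝓝 (RCLike.re ⟪B x - W.starProjection x, x⟫_ℂ)) :=
          (RCLike.continuous_re.tendsto _).comp
            ((tendsto_const_nhds.sub ht).inner tendsto_const_nhds)
        have hne : (atTop : Filter ι).NeBot := atTop_neBot
        refine ge_of_tendsto' ht2 fun i => ?_
        exact (hB' i).2 x
  have hdir : DirectedOn (· ≤ ·) D := by
    rintro _ ⟨i, rfl⟩ _ ⟨j, rfl⟩
    obtain ⟨k, hik, hjk⟩ := exists_ge_ge i j
    exact ⟨_, ⟨k, rfl⟩, Submodule.starProjection_le_starProjection_iff.2 (hmono hik),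
      Submodule.starProjection_le_starProjection_iff.2 (hmono hjk)⟩
  have hne : D.Nonempty := Set.range_nonempty _
  rw [h.normal D ?_ hne hdir _ hlub]
  · refine iSup₂_le ?_
    rintro _ ⟨i, rfl⟩
    exact hC i
  · rintro _ ⟨i, rfl⟩
    exact ⟨proj_mem hR _ (hK i), proj_nonneg isStarProjection_starProjection⟩

end Tr

end Pool.Agent.K3h42.IE
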