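import Mathlib
import Pool.Agent.K3h42.IE.Comm
import Pool.Agent.K3h42.IE.Tr

/-!
Decomposition of right modules into cyclic modules, and cyclic modules over a larger algebra.
-/

set_option autoImplicit false
set_option linter.unusedSectionVars false
open scoped InnerProductSpace ENNReal NNReal
open ContinuousLinearMap Filter Topology

namespace Pool.Agent.K3h42.IE

universe u
variable {H : Type u} [NormedAddCommGroup H] [InnerProductSpace ℂ H] [CompleteSpace H]

namespace TracialSystem

variable {S : TracialSystem H}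

theorem Rt_add (f g : H →L[ℂ] H) (x : H) : S.Rt (f + g) x = S.Rt f x + S.Rt g x := by
  rw [Rt_def, Rt_def, Rt_def, star_add]
  change S.J ((star f) (S.J x) + (star g) (S.J x)) = _
  rw [map_add]

theorem Rt_smul (c : ℂ) (f : H →L[ℂ] H) (x : H) : S.Rt (c • f) x = c • S.Rt f x := by
  rw [Rt_def, Rt_def, star_smul]
  change S.J ((star c) • (star f) (S.J x)) = _
  rw [map_smulₛₗ]
  simp

theorem Rt_one (x : H) : S.Rt 1 x = x := by
  rw [Rt_def, star_one]
  exact S.J_J x

/-- the cyclic right module generated by `v` -/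
def cyc (S : TracialSystem H) (G : VonNeumannAlgebra H) (v : H) : Submodule ℂ H where
  carrier := {x : H | ∃ g ∈ G, x = S.Rt g v}
  add_mem' := by
    rintro _ _ ⟨f, hf, rfl⟩ ⟨g, hg, rfl⟩
    exact ⟨f + g, add_mem hf hg, (Rt_add f g v).symm⟩
  zero_mem' := ⟨0, zero_mem G, by
    have := Rt_smul (S := S) 0 0 v
    rw [zero_smul, zero_smul] at this
    exact this.symm⟩
  smul_mem' := by
    rintro c _ ⟨f, hf, rfl⟩
    exact ⟨c • f, smul_memV G c hf, (Rt_smul c f v).symm⟩

theorem self_mem_cyc (G : VonNeumannAlgebra H) (v : H) : v ∈ S.cyc G v :=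
  ⟨1, one_mem G, (Rt_one v).symm⟩

theorem cyc_inv {G : VonNeumannAlgebra H} {v : H} :
    ∀ y ∈ S.RF G, ∀ x ∈ S.cyc G v, y x ∈ S.cyc G v := by
  rintro _ ⟨g, hg, rfl⟩ _ ⟨f, hf, rfl⟩
  exact ⟨f * g, mul_mem hf hg, S.Rt_mul f g v⟩

/-- a projection of the basic construction below `e_F` comes from a projection in `F` -/
theorem exists_F_proj {F : VonNeumannAlgebra H} (hF : F ≤ S.A) {q : H →L[ℂ] H}
    (hq : q ∈ Set.centralizer (S.RF F)) (hq1 : IsStarProjection q) (hqe : q * S.e F = q) :
    ∃ p ∈ F, IsStarProjection p ∧ p * S.e F = q := by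
  have heq : S.e F * q = q := by
    have := congrArg star hqe
    rwa [star_mul, e_star, hq1.isSelfAdjoint.star_eq] at this
  set K0 : Submodule ℂ H := Submodule.span ℂ {x | ∃ y ∈ F.commutant, ∃ ξ, x = y (q ξ)} with hK0
  have hinv : ∀ y ∈ F.commutant, ∀ x ∈ K0, y x ∈ K0 := by
    intro y hy x hx
    induction hx using Submodule.span_induction with
    | mem x h =>
      obtain ⟨y', hy', ξ, rfl⟩ := h
      exact Submodule.subset_span ⟨y * y', mul_mem hy hy', ξ, rfl⟩
    | zero => rw [map_zero]; exact zero_mem _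
    | add x y _ _ h1 h2 => rw [map_add]; exact add_mem h1 h2
    | smul c x _ h => rw [map_smul]; exact Submodule.smul_mem _ _ h
  set K := K0.topologicalClosure with hK
  set p := K.starProjection with hp
  have hpp : IsStarProjection p := isStarProjection_starProjection
  have hpF : p ∈ F := by
    have h1 : p ∈ Set.centralizer (F.commutant : Set (H →L[ℂ] H)) :=
      proj_mem (R := (F.commutant : Set (H →L[ℂ] H))) (fun y hy => by
        have hy' : y ∈ F.commutant := hy
        exact star_mem hy') K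
        (fun y hy => closure_inv y (hinv y hy))
    rw [mem_iff_comm]
    intro y hy
    exact (Set.mem_centralizer_iff.1 h1) y hy
  have hpq : p * q = q := by
    ext ξ
    exact K.starProjection_eq_self_iff.2
      (Submodule.le_topologicalClosure _ (Submodule.subset_span ⟨1, one_mem _, ξ, rfl⟩))
  have hqp : q * p = q := by
    have := congrArg star hpq
    rwa [star_mul, hpp.isSelfAdjoint.star_eq, hq1.isSelfAdjoint.star_eq] at this
  have hcomm : p * S.e F = S.e F * p := e_comm hpF
  have hfix : ∀ x ∈ K, q (S.e F x) = S.e F x := by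
    have h1 : ∀ x ∈ K0, q (S.e F x) = S.e F x := by
      intro x hx
      induction hx using Submodule.span_induction with
      | mem x h =>
        obtain ⟨y, hy, ξ, rfl⟩ := h
        set t := S.e F * y * S.e F with ht
        have hte : S.e F * t * S.e F = t := by
          rw [ht]
          simp only [← mul_assoc]
          rw [e_mul, mul_assoc (S.e F * y), e_mul]
        have hcom : q * t = t * q := by
          refine comm_thm hF ?_ hte hq ?_
          · rw [heq, hqe]
          · intro f hf x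
            have e1 : ∀ z, f (S.e F z) = S.e F (f z) := fun z =>
              congrArg (fun T : H →L[ℂ] H => T z) (e_comm (S := S) hf)
            change f (S.e F (y (S.e F x))) = S.e F (y (S.e F (f x)))
            rw [e1, (mem_comm_iff _ _).1 hy f hf, e1]
        have h2 : S.e F (y (q ξ)) = (t * q) ξ := by
          change _ = S.e F (y (S.e F (q ξ)))
          have : S.e F (q ξ) = q ξ := congrArg (fun T : H →L[ℂ] H => T ξ) heq
          rw [this]
        rw [h2, ← hcom]
        change q (q (t ξ)) = q (t ξ)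
        exact congrArg (fun T : H →L[ℂ] H => T (t ξ)) hq1.isIdempotentElem.eq
      | zero => simp
      | add x y _ _ h1 h2 => rw [map_add, map_add, h1, h2]
      | smul c x _ h => rw [map_smul, map_smul, h]
    intro x hx
    have hc : IsClosed {x | q (S.e F x) = S.e F x} :=
      isClosed_eq (q.continuous.comp (S.e F).continuous) (S.e F).continuous
    have h2 : (K : Set H) ⊆ {x | q (S.e F x) = S.e F x} := by
      rw [hK, Submodule.topologicalClosure_coe]
      exact closure_minimal h1 hc
    exact h2 hx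
  refine ⟨p, hpF, hpp, ?_⟩
  have h3 : q * (S.e F * p) = S.e F * p := by
    ext ξ
    exact hfix _ (K.starProjection_apply_mem ξ)
  rw [hcomm, ← h3, ← mul_assoc, hqe, hqp]

/-- a partial isometry with initial projection below `e_F`, attached to a nonzero invariant
subspace -/
theorem exists_pis {F : VonNeumannAlgebra H} (hF : F ≤ S.A) (V : Submodule ℂ H)
    [V.HasOrthogonalProjection] (hV : ∀ y ∈ S.RF F, ∀ x ∈ V, y x ∈ V) {x : H} (hx : x ∈ V)
    (hx0 : x ≠ 0) :
    ∃ w ∈ Set.centralizer (S.RF F), w * S.e F = w ∧ IsStarProjection (star w * w) ∧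
      (∀ ξ, w ξ ∈ V) ∧ w ≠ 0 := by
  have hR := S.RF_SA F
  set P := V.starProjection with hP
  have hPm : P ∈ Set.centralizer (S.RF F) := proj_mem hR V hV
  obtain ⟨a, ha, hPa⟩ : ∃ a ∈ S.A, P (a S.Ω) ≠ 0 := by
    by_contra hcon
    push Not at hcon
    have := S.ext_cyc (f := fun x => P x) (g := fun _ => 0) P.continuous continuous_const hcon
    have h2 : P x = x := V.starProjection_eq_self_iff.2 hx
    exact hx0 (by rw [← h2]; exact congrFun this x)
  set T := P * a * S.e F with hT
  have hTm : T ∈ Set.centralizer (S.RF F) := cent_mul (cent_mul hPm (A_cent hF ha)) (e_cent hF)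
  obtain ⟨w, hw, h1, h2, h3⟩ := exists_polar' hR hTm
  have hTe : T * S.e F = T := by rw [hT, mul_assoc, e_mul]
  have hwP : ∀ ξ, (w * star w) ξ ∈ V := by
    intro ξ
    rw [h2]
    have hle : (LinearMap.range (T : H →ₗ[ℂ] H)).topologicalClosure ≤ V := by
      refine Submodule.topologicalClosure_minimal _ ?_ ?_
      · rintro _ ⟨η, rfl⟩
        exact V.starProjection_apply_mem _
      · have h5 : (V : Set H) = {x | P x = x} := by
          ext y
          exact V.starProjection_eq_self_iff.symm
        rw [h5]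
        exact isClosed_eq P.continuous continuous_id
    exact hle (Submodule.starProjection_apply_mem _ ξ)
  have hww : w * star w * w = w := by
    rw [mul_assoc]
    exact pi_mul h1.isIdempotentElem rfl
  refine ⟨w, hw, h3 _ hTe, h1, ?_, ?_⟩
  · intro ξ
    have := hwP (w ξ)
    rwa [← mulA (w * star w) w, hww] at this
  · intro hw0
    apply hPa
    have h6 : T S.Ω ∈ (LinearMap.range (T : H →ₗ[ℂ] H)).topologicalClosure :=
      Submodule.le_topologicalClosure _ ⟨S.Ω, rfl⟩
    have h7 : (w * star w) (T S.Ω) = T S.Ω := by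
      rw [h2]
      exact Submodule.starProjection_eq_self_iff.2 h6
    rw [hw0] at h7
    have h8 : T S.Ω = 0 := by rw [← h7]; simp
    rw [hT] at h8
    change P (a (S.e F S.Ω)) = 0 at h8
    rwa [e_Ω] at h8

/-- decomposition of a closed right module -/
theorem exists_decomp {F : VonNeumannAlgebra H} (hF : F ≤ S.A) (V : Submodule ℂ H)
    [V.HasOrthogonalProjection] (hV : ∀ y ∈ S.RF F, ∀ x ∈ V, y x ∈ V) :
    ∃ W : Set (H →L[ℂ] H), (∀ w ∈ W, w ∈ Set.centralizer (S.RF F) ∧ w * S.e F = w ∧
      IsStarProjection (star w * w) ∧ ∀ ξ, w ξ ∈ V) ∧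
      (W.Pairwise fun w w' => star w * w' = 0) ∧
      V ≤ (⨆ w ∈ W, LinearMap.range (w : H →ₗ[ℂ] H)).topologicalClosure := by
  set Good : Set (Set (H →L[ℂ] H)) := {W | (∀ w ∈ W, w ∈ Set.centralizer (S.RF F) ∧
    w * S.e F = w ∧ IsStarProjection (star w * w) ∧ ∀ ξ, w ξ ∈ V) ∧
      (W.Pairwise fun w w' => star w * w' = 0)} with hGood
  obtain ⟨W, hW⟩ := zorn_subset Good (by
    intro c hc hchain
    refine ⟨⋃₀ c, ⟨?_, ?_⟩, fun s hs => Set.subset_sUnion_of_mem hs⟩
    · rintro w ⟨s, hs, hw⟩
      exact (hc hs).1 w hw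
    · rw [Set.pairwise_sUnion hchain.directedOn]
      exact fun s hs => (hc hs).2)
  refine ⟨W, hW.prop.1, hW.prop.2, ?_⟩
  set Y := (⨆ w ∈ W, LinearMap.range (w : H →ₗ[ℂ] H)).topologicalClosure with hY
  by_contra hcon
  -- the orthogonal complement of the sum in `V`
  obtain ⟨x, hxV, hxY⟩ : ∃ x ∈ V, x ∉ Y := by
    rw [SetLike.le_def] at hcon
    push Not at hcon
    exact hcon
  have hYV : Y ≤ V := by
    refine Submodule.topologicalClosure_minimal _ ?_ ?_
    · refine iSup₂_le fun w hw => ?_
      rintro _ ⟨ξ, rfl⟩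
      exact (hW.prop.1 w hw).2.2.2 ξ
    · have h5 : (V : Set H) = {x | V.starProjection x = x} := by
        ext y
        exact V.starProjection_eq_self_iff.symm
      rw [h5]
      exact isClosed_eq V.starProjection.continuous continuous_id
  have hYinv : ∀ y ∈ S.RF F, ∀ x ∈ Y, y x ∈ Y := by
    intro y hy
    refine closure_inv y fun x hx => ?_
    induction hx using Submodule.iSup_induction' with
    | mem w x hx =>
      induction hx using Submodule.iSup_induction' with
      | mem hw x hx =>
        obtain ⟨ξ, rfl⟩ := hx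
        refine Submodule.mem_iSup_of_mem w (Submodule.mem_iSup_of_mem hw ⟨y ξ, ?_⟩)
        exact (mem_cent.1 (hW.prop.1 w hw).1 y hy ξ).symm
      | zero => rw [map_zero]; exact zero_mem _
      | add x y _ _ h1 h2 => rw [map_add]; exact add_mem h1 h2
    | zero => rw [map_zero]; exact zero_mem _
    | add x y _ _ h1 h2 => rw [map_add]; exact add_mem h1 h2
  have hR := S.RF_SA F
  set V' : Submodule ℂ H := V ⊓ Yᗮ with hV'
  have hV'c : IsClosed (V' : Set H) := by
    have h5 : (V : Set H) = {x | V.starProjection x = x} := by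
      ext y
      exact V.starProjection_eq_self_iff.symm
    have h6 : IsClosed (V : Set H) := by
      rw [h5]
      exact isClosed_eq V.starProjection.continuous continuous_id
    exact h6.inter (Submodule.isClosed_orthogonal Y)
  have : CompleteSpace V' := hV'c.completeSpace_coe
  have hYo : ∀ y ∈ S.RF F, ∀ x ∈ Yᗮ, y x ∈ Yᗮ := by
    intro y hy x hx z hz
    rw [← star_inner]
    exact hx _ (hYinv _ (hR y hy) z hz)
  have hV'inv : ∀ y ∈ S.RF F, ∀ x ∈ V', y x ∈ V' := fun y hy x hx =>
    ⟨hV y hy x hx.1, hYo y hy x hx.2⟩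
  set x' := x - Y.starProjection x with hx'
  have hx'V : x' ∈ V' :=
    ⟨Submodule.sub_mem _ hxV (hYV (Y.starProjection_apply_mem x)),
      Y.sub_starProjection_mem_orthogonal x⟩
  have hx'0 : x' ≠ 0 := by
    intro h0
    apply hxY
    rw [← Y.starProjection_eq_self_iff]
    exact (sub_eq_zero.1 h0).symm
  obtain ⟨w, hw, hw1, hw2, hw3, hw4⟩ := exists_pis hF V' hV'inv hx'V hx'0
  have horth : ∀ w' ∈ W, star w' * w = 0 := by
    intro w' hw'
    ext ξ
    refine ext_inner_left ℂ fun z => ?_
    rw [mulA, inner_star]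
    change _ = ⟪z, (0 : H)⟫_ℂ
    rw [inner_zero_right]
    refine (hw3 ξ).2 _ (Submodule.le_topologicalClosure _ ?_)
    exact Submodule.mem_iSup_of_mem w' (Submodule.mem_iSup_of_mem hw' ⟨z, rfl⟩)
  have horth' : ∀ w' ∈ W, star w * w' = 0 := by
    intro w' hw'
    have := congrArg star (horth w' hw')
    rwa [star_mul, star_star, star_zero] at this
  have hins : insert w W ∈ Good := by
    refine ⟨?_, ?_⟩
    · rintro u (rfl | hu)
      · exact ⟨hw, hw1, hw2, fun ξ => (hw3 ξ).1⟩
      · exact hW.prop.1 u hu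
    · rw [Set.pairwise_insert]
      exact ⟨hW.prop.2, fun b hb _ => ⟨horth' b hb, horth b hb⟩⟩
  have hmem : w ∈ W := hW.le_of_ge hins (Set.subset_insert w W) (Set.mem_insert w W)
  exact hw4 (star_self_zero (horth w hmem))

/-- cyclic modules are small -/
theorem exists_cyc_G {G : VonNeumannAlgebra H} (hG : G ≤ S.A) (v : H) {p : H →L[ℂ] H} (hp : p ∈ G)
    (hp1 : IsStarProjection p) (hv : S.Rt p v = v) :
    ∃ w ∈ Set.centralizer (S.RF G), IsStarProjection (star w * w) ∧
      w * star w = (S.cyc G v).topologicalClosure.starProjection ∧ w * (p * S.e G) = w := by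
  set Γ : Submodule ℂ (H × H) :=
    { carrier := {z : H × H | ∃ g ∈ G, z = (p (g S.Ω), S.Rt g v)}
      add_mem' := by
        rintro _ _ ⟨f, hf, rfl⟩ ⟨g, hg, rfl⟩
        refine ⟨f + g, add_mem hf hg, ?_⟩
        refine Prod.ext ?_ (Rt_add f g v).symm
        change p (f S.Ω) + p (g S.Ω) = p (f S.Ω + g S.Ω)
        rw [map_add]
      zero_mem' := ⟨0, zero_mem G, by
        have h0 := Rt_smul (S := S) 0 0 v
        rw [zero_smul, zero_smul] at h0
        refine Prod.ext ?_ h0.symm
        change 0 = p 0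
        rw [map_zero]⟩
      smul_mem' := by
        rintro c _ ⟨f, hf, rfl⟩
        refine ⟨c • f, smul_memV G c hf, ?_⟩
        refine Prod.ext ?_ (Rt_smul c f v).symm
        change c • p (f S.Ω) = p (c • f S.Ω)
        rw [map_smul] } with hΓ
  have hR := S.RF_SA G
  obtain ⟨w, hw, h1, h2, h3⟩ := exists_cyc hR Γ (by
    rintro _ ⟨g, hg, rfl⟩ _ ⟨f, hf, rfl⟩
    refine ⟨f * g, mul_mem hf hg, Prod.ext ?_ (S.Rt_mul f g v)⟩
    change S.Rt g (p (f S.Ω)) = p (f (g S.Ω))
    rw [← mulA p f, S.Rt_Ω (mul_mem (hG hp) (hG hf)) (hG hg)]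
    rfl) (by
    intro y hy
    have h5 : ∀ a ∈ S.A, ⟪y, a S.Ω⟫_ℂ = 0 := by
      intro a ha
      have hc : IsClosed {z : H × H | ⟪z.2, a S.Ω⟫_ℂ = ⟪z.1, S.J ((star a) v)⟫_ℂ} :=
        isClosed_eq (by fun_prop) (by fun_prop)
      have h6 : (Γ.topologicalClosure : Set (H × H)) ⊆
          {z : H × H | ⟪z.2, a S.Ω⟫_ℂ = ⟪z.1, S.J ((star a) v)⟫_ℂ} := by
        rw [Submodule.topologicalClosure_coe]
        refine closure_minimal ?_ hc
        rintro _ ⟨g, hg, rfl⟩
        change ⟪S.Rt g v, a S.Ω⟫_ℂ = ⟪p (g S.Ω), S.J ((star a) v)⟫_ℂ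
        have hpg : p * g ∈ S.A := mul_mem (hG hp) (hG hg)
        rw [← hv, S.Rt_mul, ← inner_star (S.Rt (p * g)), S.star_Rt, S.Rt_Ω ha (star_mem hpg),
          ← star_inner a, ← S.J_apply _ hpg, S.J_inner'', hv]
        rfl
      have h7 := h6 hy
      change ⟪y, a S.Ω⟫_ℂ = ⟪(0 : H), _⟫_ℂ at h7
      rwa [inner_zero_left] at h7
    refine ext_inner_right ℂ fun z => ?_
    have := S.ext_cyc (f := fun z => ⟪y, z⟫_ℂ) (g := fun z => ⟪(0 : H), z⟫_ℂ)
      (continuous_const.inner continuous_id) (continuous_const.inner continuous_id)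
      (fun a ha => by rw [h5 a ha, inner_zero_left])
    exact congrFun this z)
  refine ⟨w, hw, h1, ?_, ?_⟩
  · rw [h2]
    congr 1
    congr 1
    ext x
    constructor
    · rintro ⟨_, ⟨g, hg, rfl⟩, rfl⟩
      exact ⟨g, hg, rfl⟩
    · rintro ⟨g, hg, rfl⟩
      exact ⟨_, ⟨g, hg, rfl⟩, rfl⟩
  · set K := (Γ.map (LinearMap.fst ℂ H H)).topologicalClosure with hK
    have hpe : p * S.e G = S.e G * p := e_comm hp
    have h4 : (p * S.e G) * K.starProjection = K.starProjection := by
      ext ξ
      have hc : IsClosed {z : H | (p * S.e G) z = z} :=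
        isClosed_eq (p * S.e G).continuous continuous_id
      have h5 : (K : Set H) ⊆ {z : H | (p * S.e G) z = z} := by
        rw [hK, Submodule.topologicalClosure_coe]
        refine closure_minimal ?_ hc
        rintro _ ⟨_, ⟨g, hg, rfl⟩, rfl⟩
        change p (S.e G (p (g S.Ω))) = p (g S.Ω)
        have h6 : S.e G (p (g S.Ω)) = p (g S.Ω) := e_eq (f_mem_sub (mul_mem hp hg))
        rw [h6]
        exact congrArg (fun T : H →L[ℂ] H => T (g S.Ω)) hp1.isIdempotentElem.eq
      exact h5 (K.starProjection_apply_mem ξ)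
    have h5 : K.starProjection * (p * S.e G) = K.starProjection := by
      have := congrArg star h4
      rw [star_mul, star_mul, e_star, hp1.isSelfAdjoint.star_eq,
        (isStarProjection_starProjection (U := K)).isSelfAdjoint.star_eq, ← hpe] at this
      exact this
    rw [← h3, mul_assoc, h5]

end TracialSystem

end Pool.Agent.K3h42.IE
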