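import Mathlib
import Pool.Agent.K3h42.IE.Cyc

/-!
Existence of the canonical trace of the basic construction.
-/

set_option autoImplicit false
set_option linter.unusedSectionVars false
open scoped InnerProductSpace ENNReal NNReal ComplexOrder
open ContinuousLinearMap Filter Topology

namespace Pool.Agent.K3h42.IE

universe u
variable {H : Type u} [NormedAddCommGroup H] [InnerProductSpace ℂ H] [CompleteSpace H]

section Normal

/-- For a positive operator `T ≤ x`: `‖T ξ‖² ≤ ‖x‖ * re ⟪ξ, T ξ⟫`. -/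
theorem vn_norm_sq_le (T x : H →L[ℂ] H) (h0 : 0 ≤ T) (hx : T ≤ x) (ξ : H) :
    ‖T ξ‖ ^ 2 ≤ ‖x‖ * (⟪ξ, T ξ⟫_ℂ).re := by
  have hn : ‖T‖ ≤ ‖x‖ := CStarAlgebra.norm_le_norm_of_nonneg_of_le h0 hx
  obtain ⟨b, rfl⟩ := CStarAlgebra.nonneg_iff_eq_star_mul_self.mp h0
  have hb : ‖star b * b‖ = ‖b‖ * ‖b‖ := CStarRing.norm_star_mul_self
  have h1 : (⟪ξ, (star b * b) ξ⟫_ℂ).re = ‖b ξ‖ ^ 2 := by
    rw [mulA, inner_star]
    have := inner_self_eq_norm_sq (𝕜 := ℂ) (b ξ)
    simpa using this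
  have h2 : ‖(star b * b) ξ‖ ≤ ‖b‖ * ‖b ξ‖ := by
    rw [mulA]
    calc ‖(star b) (b ξ)‖ ≤ ‖star b‖ * ‖b ξ‖ := (star b).le_opNorm _
      _ = ‖b‖ * ‖b ξ‖ := by rw [norm_star]
  rw [h1]
  have h3 : ‖(star b * b) ξ‖ ^ 2 ≤ (‖b‖ * ‖b ξ‖) ^ 2 :=
    pow_le_pow_left₀ (norm_nonneg _) h2 2
  have h4 : (‖b‖ * ‖b ξ‖) ^ 2 = ‖star b * b‖ * ‖b ξ‖ ^ 2 := by rw [hb]; ring
  rw [h4] at h3
  exact h3.trans (mul_le_mul_of_nonneg_right hn (by positivity))

theorem vn_mono {a b : H →L[ℂ] H} (h : a ≤ b) (ξ : H) :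
    (⟪ξ, a ξ⟫_ℂ).re ≤ (⟪ξ, b ξ⟫_ℂ).re := by
  rw [ContinuousLinearMap.le_def] at h
  have h1 := h.inner_nonneg_right ξ
  have h2 : (⟪ξ, (b - a) ξ⟫_ℂ) = ⟪ξ, b ξ⟫_ℂ - ⟪ξ, a ξ⟫_ℂ := by
    rw [_root_.sub_apply, inner_sub_right]
  rw [h2] at h1
  have h3 := (Complex.le_def.mp h1).1
  simp at h3
  linarith

/-- Vector functionals are normal: they preserve suprema of directed sets of positive operators. -/
theorem vector_normal (D : Set (H →L[ℂ] H)) (x : H →L[ℂ] H) (hne : D.Nonempty)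
    (hdir : DirectedOn (· ≤ ·) D) (hpos : ∀ d ∈ D, 0 ≤ d) (hx : IsLUB D x) (Ω : H) :
    ENNReal.ofReal (⟪Ω, x Ω⟫_ℂ).re = ⨆ d ∈ D, ENNReal.ofReal (⟪Ω, d Ω⟫_ℂ).re := by
  classical
  have : Nonempty D := hne.to_subtype
  have : IsDirectedOrder D := hdir.isDirectedOrder
  -- the net `d ξ` is Cauchy
  have hcauchy : ∀ ξ : H, Cauchy (map (fun d : D => (d : H →L[ℂ] H) ξ) atTop) := by
    intro ξ
    rw [Metric.cauchy_iff]
    refine ⟨inferInstance, fun ε hε => ?_⟩
    have hbdd : BddAbove (Set.range fun d : D => (⟪ξ, (d : H →L[ℂ] H) ξ⟫_ℂ).re) := by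
      refine ⟨(⟪ξ, x ξ⟫_ℂ).re, ?_⟩
      rintro _ ⟨d, rfl⟩
      exact vn_mono (hx.1 d.2) ξ
    set s := ⨆ d : D, (⟪ξ, (d : H →L[ℂ] H) ξ⟫_ℂ).re with hs
    set δ : ℝ := (ε / 4) ^ 2 / (‖x‖ + 1) with hδ
    have hxpos : 0 < ‖x‖ + 1 := by positivity
    have hδpos : 0 < δ := by positivity
    obtain ⟨d0, hd0⟩ := exists_lt_of_lt_ciSup (show s - δ < s by linarith)
    have key : ∀ d : D, d0 ≤ d → ‖(d : H →L[ℂ] H) ξ - (d0 : H →L[ℂ] H) ξ‖ ≤ ε / 4 := by
      intro d hd
      have hd' : (d0 : H →L[ℂ] H) ≤ d := hd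
      have hT0 : 0 ≤ (d : H →L[ℂ] H) - d0 := sub_nonneg.mpr hd'
      have hTx : (d : H →L[ℂ] H) - d0 ≤ x :=
        (sub_le_self _ (hpos d0 d0.2)).trans (hx.1 d.2)
      have h1 := vn_norm_sq_le _ x hT0 hTx ξ
      rw [_root_.sub_apply, inner_sub_right, Complex.sub_re] at h1
      have h2 : (⟪ξ, (d : H →L[ℂ] H) ξ⟫_ℂ).re ≤ s := le_ciSup hbdd d
      have h3 : ‖x‖ * ((⟪ξ, (d : H →L[ℂ] H) ξ⟫_ℂ).re - (⟪ξ, (d0 : H →L[ℂ] H) ξ⟫_ℂ).re)
          ≤ ‖x‖ * δ := by
        apply mul_le_mul_of_nonneg_left _ (norm_nonneg _)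
        linarith
      have h4 : ‖x‖ * δ ≤ (ε / 4) ^ 2 := by
        rw [hδ]
        rw [mul_div_assoc', div_le_iff₀ hxpos]
        nlinarith [sq_nonneg (ε / 4), norm_nonneg x]
      exact le_of_sq_le_sq (h1.trans (h3.trans h4)) (by positivity)
    refine ⟨(fun d : D => (d : H →L[ℂ] H) ξ) '' Set.Ici d0, ?_, ?_⟩
    · exact image_mem_map (Ici_mem_atTop d0)
    · rintro _ ⟨d, hd, rfl⟩ _ ⟨e, he, rfl⟩
      have h1 := key d hd
      have h2 := key e he
      calc dist ((d : H →L[ℂ] H) ξ) ((e : H →L[ℂ] H) ξ)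
          ≤ dist ((d : H →L[ℂ] H) ξ) ((d0 : H →L[ℂ] H) ξ)
            + dist ((e : H →L[ℂ] H) ξ) ((d0 : H →L[ℂ] H) ξ) := dist_triangle_right _ _ _
        _ ≤ ε / 4 + ε / 4 := by rw [dist_eq_norm, dist_eq_norm]; exact add_le_add h1 h2
        _ < ε := by linarith
  choose f hf using fun ξ => cauchy_iff_exists_le_nhds.mp (hcauchy ξ)
  have hft : Tendsto (fun (d : D) (ξ : H) => (d : H →L[ℂ] H) ξ) atTop (𝓝 f) :=
    tendsto_pi_nhds.mpr fun ξ => hf ξ
  have hbd : Bornology.IsBounded (Set.range fun d : D => (d : H →L[ℂ] H)) := by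
    rw [isBounded_iff_forall_norm_le]
    refine ⟨‖x‖, ?_⟩
    rintro _ ⟨d, rfl⟩
    exact CStarAlgebra.norm_le_norm_of_nonneg_of_le (hpos d d.2) (hx.1 d.2)
  let y : H →L[ℂ] H :=
    ContinuousLinearMap.ofTendstoOfBoundedRange f (fun d : D => (d : H →L[ℂ] H)) hft hbd
  have hy : ∀ ξ, Tendsto (fun d : D => (d : H →L[ℂ] H) ξ) atTop (𝓝 (y ξ)) := fun ξ => hf ξ
  have hub : y ∈ upperBounds D := by
    intro d hd
    rw [ContinuousLinearMap.le_def, ContinuousLinearMap.isPositive_iff_complex]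
    have h0 : ∀ ξ : H, (0 : ℂ) ≤ ⟪(y - d) ξ, ξ⟫_ℂ := by
      intro ξ
      have ht : Tendsto (fun e : D => ⟪((e : H →L[ℂ] H) - d) ξ, ξ⟫_ℂ) atTop
          (𝓝 ⟪(y - d) ξ, ξ⟫_ℂ) := by
        have h1 : Tendsto (fun e : D => ((e : H →L[ℂ] H) - d) ξ) atTop (𝓝 ((y - d) ξ)) := by
          simp only [_root_.sub_apply]
          exact (hy ξ).sub_const _
        exact h1.inner tendsto_const_nhds
      refine ge_of_tendsto ht ?_
      filter_upwards [Ici_mem_atTop (⟨d, hd⟩ : D)] with e he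
      have he' : d ≤ (e : H →L[ℂ] H) := he
      exact ((ContinuousLinearMap.le_def _ _).mp he').inner_nonneg_left ξ
    intro ξ
    have h1 := h0 ξ
    rw [Complex.le_def] at h1
    refine ⟨?_, h1.1⟩
    apply Complex.ext
    · simp
    · rw [Complex.ofReal_im]
      exact h1.2
  have hxy : x ≤ y := hx.2 hub
  apply le_antisymm
  · calc ENNReal.ofReal (⟪Ω, x Ω⟫_ℂ).re ≤ ENNReal.ofReal (⟪Ω, y Ω⟫_ℂ).re :=
          ENNReal.ofReal_le_ofReal (vn_mono hxy Ω)
      _ ≤ _ := by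
          have ht : Tendsto (fun d : D => ENNReal.ofReal (⟪Ω, (d : H →L[ℂ] H) Ω⟫_ℂ).re) atTop
              (𝓝 (ENNReal.ofReal (⟪Ω, y Ω⟫_ℂ).re)) := by
            have h1 : Tendsto (fun d : D => ⟪Ω, (d : H →L[ℂ] H) Ω⟫_ℂ) atTop
                (𝓝 ⟪Ω, y Ω⟫_ℂ) := tendsto_const_nhds.inner (hy Ω)
            exact (ENNReal.continuous_ofReal.tendsto _).comp
              ((Complex.continuous_re.tendsto _).comp h1)
          refine le_of_tendsto ht (Eventually.of_forall fun d => ?_)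
          exact le_iSup₂ (f := fun (d : H →L[ℂ] H) (_ : d ∈ D) =>
            ENNReal.ofReal (⟪Ω, d Ω⟫_ℂ).re) d.1 d.2
  · exact iSup₂_le fun d hd => ENNReal.ofReal_le_ofReal (vn_mono (hx.1 hd) Ω)

end Normal

theorem re_inner_nonneg {x : H →L[ℂ] H} (hx : 0 ≤ x) (ξ : H) : 0 ≤ (⟪ξ, x ξ⟫_ℂ).re := by
  have := vn_mono hx ξ
  simpa using this

theorem re_inner_star_mul (x : H →L[ℂ] H) (ξ : H) :
    (⟪ξ, (star x * x) ξ⟫_ℂ).re = ‖x ξ‖ ^ 2 := by
  rw [mulA, inner_star]
  have := inner_self_eq_norm_sq (𝕜 := ℂ) (x ξ)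
  simpa using this

/-- a family of partial isometries whose final projections are orthogonal with sum one -/
structure Fam (W : Set (H →L[ℂ] H)) : Prop where
  init : ∀ w ∈ W, IsStarProjection (star w * w)
  pair : W.Pairwise fun w w' => star w * w' = 0
  dense : ⊤ ≤ (⨆ w ∈ W, LinearMap.range (w : H →ₗ[ℂ] H)).topologicalClosure

namespace Fam

variable {W : Set (H →L[ℂ] H)} (hW : Fam W)
include hW

theorem hasSum (y : H) : HasSum (fun w : W => ‖(star (w : H →L[ℂ] H)) y‖ ^ 2) (‖y‖ ^ 2) := by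
  classical
  have hww : ∀ w : W, (star (w : H →L[ℂ] H)) * w * star (w : H →L[ℂ] H) =
      star (w : H →L[ℂ] H) := by
    intro w
    have h1 := pi_mul (hW.init w w.2).isIdempotentElem.eq (v := (w : H →L[ℂ] H)) rfl
    have := congrArg star h1
    rwa [star_mul, star_mul, star_star] at this
  let SS : Finset W → (H →L[ℂ] H) := fun s => ∑ w ∈ s, (w : H →L[ℂ] H) * star (w : H →L[ℂ] H)
  let K : Finset W → Submodule ℂ H := fun s =>
    (⨆ w ∈ s, LinearMap.range ((w : H →L[ℂ] H) : H →ₗ[ℂ] H)).topologicalClosure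
  have hKdef : ∀ s, K s =
    (⨆ w ∈ s, LinearMap.range ((w : H →L[ℂ] H) : H →ₗ[ℂ] H)).topologicalClosure := fun s => rfl
  have hKinst : ∀ s, (K s).HasOrthogonalProjection := fun s => by
    rw [hKdef]; infer_instance
  have hSS : ∀ s : Finset W, ∀ u ∈ s, star (u : H →L[ℂ] H) * SS s = star (u : H →L[ℂ] H) := by
    intro s u hu
    change star (u : H →L[ℂ] H) * (∑ w ∈ s, (w : H →L[ℂ] H) * star (w : H →L[ℂ] H)) = _
    rw [Finset.mul_sum, Finset.sum_eq_single u]
    · rw [← mul_assoc, hww]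
    · intro w _ hne
      rw [← mul_assoc, hW.pair u.2 w.2 (fun h => hne (Subtype.ext h.symm)), zero_mul]
    · exact fun h => absurd hu h
  have hproj : ∀ s y, (K s).starProjection y = SS s y := by
    intro s y
    refine (K s).eq_starProjection_of_mem_of_inner_eq_zero ?_ ?_
    · have h1 : SS s y = ∑ w ∈ s, (w : H →L[ℂ] H) ((star (w : H →L[ℂ] H)) y) := by
        change (∑ w ∈ s, (w : H →L[ℂ] H) * star (w : H →L[ℂ] H)) y = _
        rw [_root_.sum_apply]
        rfl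
      rw [h1]
      refine Submodule.sum_mem _ fun w hw => Submodule.le_topologicalClosure _ ?_
      exact Submodule.mem_iSup_of_mem w (Submodule.mem_iSup_of_mem hw ⟨_, rfl⟩)
    · intro z hz
      have hc : IsClosed {z : H | ⟪y - SS s y, z⟫_ℂ = 0} :=
        isClosed_eq (by fun_prop) continuous_const
      have h5 : (K s : Set H) ⊆ {z : H | ⟪y - SS s y, z⟫_ℂ = 0} := by
        rw [hKdef, Submodule.topologicalClosure_coe]
        refine closure_minimal ?_ hc
        intro z hz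
        induction hz using Submodule.iSup_induction' with
        | mem w x hx =>
          induction hx using Submodule.iSup_induction' with
          | mem hw x hx =>
            obtain ⟨ξ, rfl⟩ := hx
            change ⟪y - SS s y, (w : H →L[ℂ] H) ξ⟫_ℂ = 0
            rw [← star_inner, map_sub, ← mulA _ (SS s), hSS s w hw, sub_self, inner_zero_left]
          | zero => exact inner_zero_right _
          | add x y _ _ h1 h2 =>
            change ⟪_, x + y⟫_ℂ = 0
            rw [inner_add_right]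
            change ⟪_, x⟫_ℂ = 0 at h1
            change ⟪_, y⟫_ℂ = 0 at h2
            rw [h1, h2, add_zero]
        | zero => exact inner_zero_right _
        | add x y _ _ h1 h2 =>
          change ⟪_, x + y⟫_ℂ = 0
          rw [inner_add_right]
          change ⟪_, x⟫_ℂ = 0 at h1
          change ⟪_, y⟫_ℂ = 0 at h2
          rw [h1, h2, add_zero]
      exact h5 hz
  have hKmono : Monotone K := fun s t hst =>
    Submodule.topologicalClosure_mono (biSup_mono hst)
  have hdense : ⊤ ≤ (⨆ s, K s).topologicalClosure := by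
    refine hW.dense.trans (Submodule.topologicalClosure_mono ?_)
    refine iSup₂_le fun w hw => ?_
    refine le_trans ?_ (le_iSup K {⟨w, hw⟩})
    rw [hKdef]
    simp only [Finset.mem_singleton, iSup_iSup_eq_left]
    exact Submodule.le_topologicalClosure _
  have ht := Submodule.starProjection_tendsto_self K hKmono y hdense
  have ht2 : Tendsto (fun s => ‖SS s y‖ ^ 2) atTop (𝓝 (‖y‖ ^ 2)) := by
    have := (ht.norm).pow 2
    refine this.congr fun s => ?_
    rw [hproj]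
  have hn : ∀ s, ‖SS s y‖ ^ 2 = ∑ w ∈ s, ‖(star (w : H →L[ℂ] H)) y‖ ^ 2 := by
    intro s
    have h1 : ⟪SS s y, SS s y⟫_ℂ = ⟪SS s y, y⟫_ℂ := by
      have h2 : SS s y ∈ K s := by
        rw [← hproj]; exact (K s).starProjection_apply_mem y
      have h3 : ⟪SS s y, y - SS s y⟫_ℂ = 0 := by
        rw [← hproj s y]
        exact (K s).sub_starProjection_mem_orthogonal y _ ((K s).starProjection_apply_mem y)
      rw [inner_sub_right, sub_eq_zero] at h3
      exact h3.symm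
    have h4 : SS s y = ∑ w ∈ s, (w : H →L[ℂ] H) ((star (w : H →L[ℂ] H)) y) := by
      change (∑ w ∈ s, (w : H →L[ℂ] H) * star (w : H →L[ℂ] H)) y = _
      rw [_root_.sum_apply]
      rfl
    have h5 : ⟪SS s y, y⟫_ℂ = ∑ w ∈ s, ((‖(star (w : H →L[ℂ] H)) y‖ : ℂ)) ^ 2 := by
      rw [h4, sum_inner]
      refine Finset.sum_congr rfl fun w _ => ?_
      rw [← inner_star, inner_self_eq_norm_sq_to_K]
      rfl
    rw [h5, inner_self_eq_norm_sq_to_K] at h1
    have h6 : ((‖SS s y‖ ^ 2 : ℝ) : ℂ) =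
        ((∑ w ∈ s, ‖(star (w : H →L[ℂ] H)) y‖ ^ 2 : ℝ) : ℂ) := by
      push_cast
      exact h1
    exact_mod_cast h6
  have ht3 : Tendsto (fun s : Finset W => ∑ w ∈ s, ‖(star (w : H →L[ℂ] H)) y‖ ^ 2) atTop
      (𝓝 (‖y‖ ^ 2)) := ht2.congr hn
  exact ht3

theorem tsum (y : H) : ∑' w : W, ENNReal.ofReal (‖(star (w : H →L[ℂ] H)) y‖ ^ 2) =
    ENNReal.ofReal (‖y‖ ^ 2) := by
  rw [← (hW.hasSum y).tsum_eq, ENNReal.ofReal_tsum_of_nonneg (fun w => by positivity)
    (hW.hasSum y).summable]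

theorem eq_zero {b : H →L[ℂ] H} (h : ∀ w ∈ W, b * w = 0) : b = 0 := by
  ext ξ
  have hc : IsClosed {z : H | b z = 0} := isClosed_eq b.continuous continuous_const
  have h5 : ((⨆ w ∈ W, LinearMap.range (w : H →ₗ[ℂ] H)).topologicalClosure : Set H) ⊆
      {z : H | b z = 0} := by
    rw [Submodule.topologicalClosure_coe]
    refine closure_minimal ?_ hc
    have h6 : (⨆ w ∈ W, LinearMap.range (w : H →ₗ[ℂ] H)) ≤ LinearMap.ker (b : H →ₗ[ℂ] H) := by
      refine iSup₂_le fun w hw => ?_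
      rintro _ ⟨η, rfl⟩
      exact congrArg (fun T : H →L[ℂ] H => T η) (h w hw)
    exact h6
  exact h5 (hW.dense Submodule.mem_top)

end Fam

namespace TracialSystem

variable {S : TracialSystem H}

/-- **Existence of the canonical trace.** -/
theorem exists_canonical (F : VonNeumannAlgebra H) (hF : F ≤ S.A) :
    ∃ τ : (H →L[ℂ] H) → ℝ≥0∞, S.IsCanonicalTrace F τ := by
  classical
  have hR := S.RF_SA F
  have hinv : ∀ y ∈ S.RF F, ∀ x ∈ (S.sub F)ᗮ, y x ∈ (S.sub F)ᗮ := by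
    intro y hy x hx z hz
    rw [← star_inner]
    refine hx _ ?_
    obtain ⟨f, hf, hfy⟩ := hR y hy
    rw [hfy]
    exact Rt_sub hF hf z hz
  obtain ⟨W0, h1, h2, h3⟩ := exists_decomp hF (S.sub F)ᗮ hinv
  have heW0 : ∀ w ∈ W0, S.e F * w = 0 := by
    intro w hw
    ext ξ
    exact (S.sub F).starProjection_apply_eq_zero_iff.2 ((h1 w hw).2.2.2 ξ)
  have heW0' : ∀ w ∈ W0, star w * S.e F = 0 := by
    intro w hw
    have := congrArg star (heW0 w hw)
    rwa [star_mul, e_star, star_zero] at this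
  set W : Set (H →L[ℂ] H) := insert (S.e F) W0 with hWdef
  have hWm : ∀ w ∈ W, w ∈ Set.centralizer (S.RF F) ∧ w * S.e F = w := by
    rintro w (rfl | hw)
    · exact ⟨e_cent hF, e_mul F⟩
    · exact ⟨(h1 w hw).1, (h1 w hw).2.1⟩
  have hW : Fam W := by
    refine ⟨?_, ?_, ?_⟩
    · rintro w (rfl | hw)
      · rw [e_star, e_mul]; exact e_proj F
      · exact (h1 w hw).2.2.1
    · rw [hWdef, Set.pairwise_insert]
      refine ⟨h2, fun w hw _ => ⟨?_, heW0' w hw⟩⟩
      rw [e_star]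
      exact heW0 w hw
    · intro x _
      have hx : x = S.e F x + (x - S.e F x) := by abel
      rw [hx]
      refine Submodule.add_mem _ ?_ ?_
      · refine Submodule.le_topologicalClosure _ ?_
        exact Submodule.mem_iSup_of_mem (S.e F)
          (Submodule.mem_iSup_of_mem (Set.mem_insert _ _) ⟨x, rfl⟩)
      · have h4 := h3 ((S.sub F).sub_starProjection_mem_orthogonal x)
        refine Submodule.topologicalClosure_mono ?_ h4
        exact biSup_mono fun w hw => Set.mem_insert_of_mem _ hw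
  set τ : (H →L[ℂ] H) → ℝ≥0∞ := fun x =>
    ∑' w : W, ENNReal.ofReal (⟪(w : H →L[ℂ] H) S.Ω, x ((w : H →L[ℂ] H) S.Ω)⟫_ℂ).re with hτ
  -- the trace property
  have hsq : ∀ x : H →L[ℂ] H, τ (star x * x) = ∑' w : W, ∑' w' : W,
      ENNReal.ofReal (‖(star (w' : H →L[ℂ] H) * x * (w : H →L[ℂ] H)) S.Ω‖ ^ 2) := by
    intro x
    refine tsum_congr fun w => ?_
    rw [re_inner_star_mul, ← hW.tsum]
    rfl
  have htr : ∀ x ∈ S.basic F, τ (star x * x) = τ (x * star x) := by
    intro x hx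
    rw [mem_basic_iff hF] at hx
    have h4 := hsq (star x)
    rw [star_star] at h4
    rw [hsq, h4, ENNReal.tsum_comm]
    refine tsum_congr fun w => tsum_congr fun w' => ?_
    -- `s = w* x w'`
    set s := star (w : H →L[ℂ] H) * x * (w' : H →L[ℂ] H) with hs
    have hw := hWm w w.2
    have hw' := hWm w' w'.2
    have hse : S.e F * s * S.e F = s := by
      have e1 : S.e F * star (w : H →L[ℂ] H) = star (w : H →L[ℂ] H) := by
        have := congrArg star hw.2
        rwa [star_mul, e_star] at this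
      rw [hs, mul_assoc, mul_assoc _ (w' : H →L[ℂ] H), hw'.2, ← mul_assoc, ← mul_assoc, e1]
    have hsm : s ∈ Set.centralizer (S.RF F) :=
      cent_mul (cent_mul (cent_star hR hw.1) hx) hw'.1
    obtain ⟨s1, s2⟩ := star_sub_of hse
    have hJ := J_right hF s1 s2 hsm
    have hn : ‖s S.Ω‖ = ‖(star s) S.Ω‖ := by
      rw [← hJ]
      exact (S.J.norm_map _).symm
    have hss : star s = star (w' : H →L[ℂ] H) * star x * (w : H →L[ℂ] H) := by
      rw [hs, star_mul, star_mul, star_star, mul_assoc]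
    rw [hn, hss]
  -- the value on `e_F M e_F`
  have hval : ∀ s : H →L[ℂ] H, s * S.e F = s → τ s = ENNReal.ofReal (⟪S.Ω, s S.Ω⟫_ℂ).re := by
    intro s hs
    have he : (S.e F) ∈ W := Set.mem_insert _ _
    change ∑' w : W, ENNReal.ofReal (⟪(w : H →L[ℂ] H) S.Ω, s ((w : H →L[ℂ] H) S.Ω)⟫_ℂ).re = _
    rw [tsum_eq_single (⟨S.e F, he⟩ : W)]
    · change ENNReal.ofReal (⟪S.e F S.Ω, s (S.e F S.Ω)⟫_ℂ).re = _
      rw [e_Ω]
    · rintro ⟨w, hw⟩ hne
      have hw0 : w ∈ W0 := by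
        rcases hw with rfl | hw
        · exact absurd rfl hne
        · exact hw
      have e1 : s (w S.Ω) = 0 := by
        have : s * w = 0 := by rw [← hs, mul_assoc, heW0 w hw0, mul_zero]
        exact congrArg (fun T : H →L[ℂ] H => T S.Ω) this
      change ENNReal.ofReal (⟪w S.Ω, s (w S.Ω)⟫_ℂ).re = 0
      rw [e1, inner_zero_right]
      simp
  refine ⟨τ, ⟨?_, ?_, htr, ?_, ?_, ?_⟩, ?_⟩
  · -- additivity
    intro x _ y _ hx hy
    rw [hτ]
    simp only
    rw [← ENNReal.tsum_add]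
    refine tsum_congr fun w => ?_
    rw [← ENNReal.ofReal_add (re_inner_nonneg hx _) (re_inner_nonneg hy _)]
    congr 1
    change (⟪(w : H →L[ℂ] H) S.Ω, x _ + y _⟫_ℂ).re = _
    rw [inner_add_right, Complex.add_re]
  · -- homogeneity
    intro c x _ hx
    rw [hτ]
    simp only
    rw [← ENNReal.tsum_mul_left]
    refine tsum_congr fun w => ?_
    change ENNReal.ofReal (⟪(w : H →L[ℂ] H) S.Ω, ((c : ℝ) : ℂ) • x _⟫_ℂ).re = _
    rw [inner_smul_right, Complex.re_ofReal_mul, ENNReal.ofReal_mul (NNReal.coe_nonneg c),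
      ENNReal.ofReal_coe_nnreal]
  · -- normality
    intro D hD hne hdir y hy
    have hD0 : ∀ d ∈ D, 0 ≤ d := fun d hd => (hD d hd).2
    have hNe : Nonempty D := hne.to_subtype
    have e1 : τ y = ∑' w : W, ⨆ d : D,
        ENNReal.ofReal (⟪(w : H →L[ℂ] H) S.Ω, (d : H →L[ℂ] H) ((w : H →L[ℂ] H) S.Ω)⟫_ℂ).re := by
      refine tsum_congr fun w => ?_
      rw [vector_normal D y hne hdir hD0 hy, iSup_subtype']
    rw [e1, iSup_subtype', ENNReal.tsum_eq_iSup_sum]
    have e2 : ∀ s : Finset W, ∑ w ∈ s, ⨆ d : D,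
        ENNReal.ofReal (⟪(w : H →L[ℂ] H) S.Ω, (d : H →L[ℂ] H) ((w : H →L[ℂ] H) S.Ω)⟫_ℂ).re =
        ⨆ d : D, ∑ w ∈ s,
        ENNReal.ofReal (⟪(w : H →L[ℂ] H) S.Ω, (d : H →L[ℂ] H) ((w : H →L[ℂ] H) S.Ω)⟫_ℂ).re := by
      intro s
      refine ENNReal.finsetSum_iSup fun d d' => ?_
      obtain ⟨c, hc, h4, h5⟩ := hdir d d.2 d' d'.2
      exact ⟨⟨c, hc⟩, fun w => ⟨ENNReal.ofReal_le_ofReal (vn_mono h4 _),
        ENNReal.ofReal_le_ofReal (vn_mono h5 _)⟩⟩
    rw [iSup_congr e2, iSup_comm]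
    refine iSup_congr fun d => ?_
    exact (ENNReal.tsum_eq_iSup_sum).symm
  · -- faithfulness
    intro x hx hx0 h4
    rw [mem_basic_iff hF] at hx
    set b := CFC.sqrt x with hb
    have hbm : b ∈ Set.centralizer (S.RF F) := sqrt_mem hR hx
    have hbs : star b = b := (IsSelfAdjoint.of_nonneg (CFC.sqrt_nonneg x)).star_eq
    have hbb : star b * b = x := by rw [hbs]; exact CFC.sqrt_mul_sqrt_self x hx0
    have h5 : ∀ w ∈ W, b * w = 0 := by
      intro w hw
      have h6 := ENNReal.tsum_eq_zero.1 h4 ⟨w, hw⟩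
      change ENNReal.ofReal (⟪w S.Ω, x (w S.Ω)⟫_ℂ).re = 0 at h6
      rw [← hbb, re_inner_star_mul, ENNReal.ofReal_eq_zero] at h6
      have h7 : b (w S.Ω) = 0 := by
        have h8 : ‖b (w S.Ω)‖ ^ 2 = 0 := le_antisymm h6 (by positivity)
        exact norm_eq_zero.1 (pow_eq_zero_iff (two_ne_zero) |>.1 h8)
      obtain ⟨hwm, hwe⟩ := hWm w hw
      have hbw : b * w ∈ Set.centralizer (S.RF F) := cent_mul hbm hwm
      have h9 : ∀ z ∈ S.sub F, (b * w) z = 0 := by
        refine sub_ext (b * w).continuous continuous_const fun f hf => ?_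
        rw [← S.Rt_Ω' (hF hf), ← mem_cent.1 hbw _ ⟨f, hf, rfl⟩]
        change S.Rt f (b (w S.Ω)) = 0
        rw [h7, map_zero]
      ext ξ
      rw [← hwe]
      exact h9 _ (e_apply_mem F ξ)
    have h6 := hW.eq_zero h5
    rw [← hbb, h6, mul_zero]
  · -- semifiniteness
    intro x hx hx0 hxne
    rw [mem_basic_iff hF] at hx
    set b := CFC.sqrt x with hb
    have hbm : b ∈ Set.centralizer (S.RF F) := sqrt_mem hR hx
    have hbs : star b = b := (IsSelfAdjoint.of_nonneg (CFC.sqrt_nonneg x)).star_eq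
    have hbb : star b * b = x := by rw [hbs]; exact CFC.sqrt_mul_sqrt_self x hx0
    obtain ⟨w, hw, hbw⟩ : ∃ w ∈ W, b * w ≠ 0 := by
      by_contra hcon
      push Not at hcon
      have h6 := hW.eq_zero hcon
      exact hxne (by rw [← hbb, h6, mul_zero])
    obtain ⟨hwm, hwe⟩ := hWm w hw
    have hbwm : b * w ∈ Set.centralizer (S.RF F) := cent_mul hbm hwm
    have hfin : IsStarProjection (w * star w) := pi_final (hW.init w hw).isIdempotentElem rfl
    refine ⟨(b * w) * star (b * w), ?_, mul_star_self_nonneg _, ?_, ?_, ?_⟩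
    · rw [mem_basic_iff hF]
      exact cent_mul hbwm (cent_star hR hbwm)
    · have e1 : x - (b * w) * star (b * w) = star ((1 - w * star w) * b) * ((1 - w * star w) * b) := by
        have e2 : IsStarProjection (1 - w * star w) := hfin.one_sub
        have e3 : star ((1 - w * star w) * b) = b * (1 - w * star w) := by
          rw [star_mul, e2.isSelfAdjoint.star_eq, hbs]
        have e4 : star (b * w) = star w * b := by rw [star_mul, hbs]
        have e5 : b * (1 - w * star w) * ((1 - w * star w) * b) = b * (1 - w * star w) * b := by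
          rw [mul_assoc b, ← mul_assoc (1 - w * star w), e2.isIdempotentElem.eq, ← mul_assoc]
        rw [e3, e5, e4, ← hbb, hbs, mul_sub, sub_mul, mul_one]
        simp only [mul_assoc]
      rw [← sub_nonneg, e1]
      exact star_mul_self_nonneg _
    · intro h0
      have h7 : star (star (b * w)) * star (b * w) = 0 := by rwa [star_star]
      have h8 := star_self_zero h7
      exact hbw (by rw [← star_star (b * w), h8, star_zero])
    · rw [← htr _ ((mem_basic_iff hF).2 hbwm), hval]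
      · exact ENNReal.ofReal_lt_top
      · rw [mul_assoc, mul_assoc, hwe]
  · -- the formula
    intro a ha
    have e1 : a * S.e F * star a = (a * S.e F) * star (a * S.e F) := by
      rw [star_mul, e_star, mul_assoc, mul_assoc, ← mul_assoc (S.e F) (S.e F), e_mul]
    have hm : a * S.e F ∈ S.basic F := by
      rw [mem_basic_iff hF]
      exact cent_mul (A_cent hF ha) (e_cent hF)
    have hsa : star a ∈ S.A := star_mem ha
    have e2 : star (a * S.e F) * (a * S.e F) * S.e F = star (a * S.e F) * (a * S.e F) := by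
      rw [mul_assoc, mul_assoc a, e_mul]
    have e3 : (a * S.e F) S.Ω = a S.Ω := by rw [mulA, e_Ω]
    have e4 : (⟪S.Ω, (star (a * S.e F) * (a * S.e F)) S.Ω⟫_ℂ).re =
        (⟪S.Ω, (a * star a) S.Ω⟫_ℂ).re := by
      rw [re_inner_star_mul, e3, ← re_inner_star_mul, S.tracial _ hsa _ ha]
    rw [e1, ← htr _ hm, hval _ e2, e4]

end TracialSystem

end Pool.Agent.K3h42.IE
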