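import Mathlib
import Pool.Agent.K3h42.IE.Cyc

/-!
Isometric extensions over intermediate systems, for given canonical traces.
-/

set_option autoImplicit false
set_option linter.unusedSectionVars false
open scoped InnerProductSpace ENNReal NNReal
open ContinuousLinearMap Filter Topology

namespace Pool.Agent.K3h42.IE

universe u
variable {H : Type u} [NormedAddCommGroup H] [InnerProductSpace ℂ H] [CompleteSpace H]

namespace TracialSystem

variable {S : TracialSystem H}

theorem IsCanonicalTrace.tr {F : VonNeumannAlgebra H} (hF : F ≤ S.A)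
    {τ : (H →L[ℂ] H) → ℝ≥0∞} (h : S.IsCanonicalTrace F τ) : Tr (S.RF F) τ where
  add x hx y hy h1 h2 := h.add x ((mem_basic_iff hF).2 hx) y ((mem_basic_iff hF).2 hy) h1 h2
  trace x hx := h.trace x ((mem_basic_iff hF).2 hx)
  normal D hD h1 h2 y hy :=
    h.normal D (fun x hx => ⟨(mem_basic_iff hF).2 (hD x hx).1, (hD x hx).2⟩) h1 h2 y hy

theorem trace_proj {F : VonNeumannAlgebra H} (hF : F ≤ S.A)
    {τ : (H →L[ℂ] H) → ℝ≥0∞} (h : S.IsCanonicalTrace F τ) {p : H →L[ℂ] H} (hp : p ∈ F)
    (hp1 : IsStarProjection p) :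
    τ (p * S.e F) = ENNReal.ofReal (⟪S.Ω, (p * star p) S.Ω⟫_ℂ).re := by
  rw [← h.formula p (hF hp), hp1.isSelfAdjoint.star_eq, mul_assoc, ← e_comm hp, ← mul_assoc,
    hp1.isIdempotentElem.eq]

/-- the closed right `G`-module generated by a family of vectors `w Ω` -/
theorem big_module {F G : VonNeumannAlgebra H} (hF : F ≤ S.A) (hG : G ≤ S.A) (hFG : F ≤ G)
    {τF τG : (H →L[ℂ] H) → ℝ≥0∞} (hτF : S.IsCanonicalTrace F τF)
    (hτG : S.IsCanonicalTrace G τG) (V : Submodule ℂ H) [V.HasOrthogonalProjection]
    (hV : ∀ y ∈ S.RF F, ∀ x ∈ V, y x ∈ V) :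
    ∃ W : Submodule ℂ H, V ≤ W ∧ (∀ y ∈ S.RF G, ∀ x ∈ W, y x ∈ W) ∧ IsClosed (W : Set H) ∧
      τG W.topologicalClosure.starProjection ≤ τF V.starProjection := by
  classical
  obtain ⟨W0, h1, h2, h3⟩ := exists_decomp hF V hV
  have hRF := S.RF_SA F
  have hRG := S.RF_SA G
  have hTF := hτF.tr hF
  have hTG := hτG.tr hG
  -- the projections
  have hp : ∀ w : W0, ∃ p ∈ F, IsStarProjection p ∧ p * S.e F = star (w : H →L[ℂ] H) * w := by
    intro w
    obtain ⟨a1, a2, a3, -⟩ := h1 w w.2
    refine exists_F_proj hF (cent_mul (cent_star hRF a1) a1) a3 ?_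
    rw [mul_assoc, a2]
  choose p hpF hp1 hpe using hp
  have hRtp : ∀ w : W0, S.Rt (p w) ((w : H →L[ℂ] H) S.Ω) = (w : H →L[ℂ] H) S.Ω := by
    intro w
    obtain ⟨a1, a2, a3, -⟩ := h1 w w.2
    have e1 : S.Rt (p w) ((w : H →L[ℂ] H) S.Ω) = (w : H →L[ℂ] H) (S.Rt (p w) S.Ω) :=
      mem_cent.1 a1 _ ⟨p w, hpF w, rfl⟩ _
    have e2 : p w S.Ω = (star (w : H →L[ℂ] H) * w) S.Ω := by
      rw [← hpe w, mulA, e_Ω]
    have e3 : (w : H →L[ℂ] H) * (star (w : H →L[ℂ] H) * w) = w :=
      pi_mul a3.isIdempotentElem rfl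
    rw [e1, S.Rt_Ω' (hF (hpF w)), e2, ← mulA, e3]
  have hτp : ∀ w : W0, τG (p w * S.e G) = τF ((w : H →L[ℂ] H) * star (w : H →L[ℂ] H)) := by
    intro w
    obtain ⟨a1, a2, a3, -⟩ := h1 w w.2
    rw [trace_proj hG hτG (hFG (hpF w)) (hp1 w), ← trace_proj hF hτF (hpF w) (hp1 w), hpe w,
      hTF.trace _ a1]
  -- the cyclic modules
  let L : W0 → Submodule ℂ H := fun w => (S.cyc G ((w : H →L[ℂ] H) S.Ω)).topologicalClosure
  have hLdef : ∀ w, L w = (S.cyc G ((w : H →L[ℂ] H) S.Ω)).topologicalClosure := fun w => rfl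
  have hLinst : ∀ w, (L w).HasOrthogonalProjection := fun w => by
    rw [hLdef]; infer_instance
  have hLinv : ∀ w, ∀ y ∈ S.RF G, ∀ x ∈ L w, y x ∈ L w := by
    intro w y hy
    exact closure_inv y (cyc_inv y hy)
  have hLτ : ∀ w, τG (L w).starProjection ≤ τF ((w : H →L[ℂ] H) * star (w : H →L[ℂ] H)) := by
    intro w
    obtain ⟨v, hv, b1, b2, b3⟩ := exists_cyc_G hG ((w : H →L[ℂ] H) S.Ω) (hFG (hpF w)) (hp1 w)
      (hRtp w)
    have e1 : (L w).starProjection = v * star v := b2.symm
    rw [e1, ← hτp w]
    refine hTG.pis hv ?_ hRG b1 ?_ b3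
    · exact cent_mul (A_cent hG (hF (hpF w))) (e_cent hG)
    · refine ⟨?_, ?_⟩
      · change (p w * S.e G) * (p w * S.e G) = p w * S.e G
        rw [mul_assoc, ← mul_assoc (S.e G), ← e_comm (hFG (hpF w)), mul_assoc (p w) (S.e G) (S.e G),
          e_mul, ← mul_assoc, (hp1 w).isIdempotentElem.eq]
      · change star (p w * S.e G) = p w * S.e G
        rw [star_mul, e_star, (hp1 w).isSelfAdjoint.star_eq, e_comm (hFG (hpF w))]
  -- finite sums
  let K : Finset W0 → Submodule ℂ H := fun s => (⨆ w ∈ s, L w).topologicalClosure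
  have hKdef : ∀ s, K s = (⨆ w ∈ s, L w).topologicalClosure := fun s => rfl
  have hKinst : ∀ s, (K s).HasOrthogonalProjection := fun s => by
    rw [hKdef]; infer_instance
  have hKinv : ∀ s, ∀ y ∈ S.RF G, ∀ x ∈ K s, y x ∈ K s := by
    intro s y hy
    refine closure_inv y fun x hx => ?_
    induction hx using Submodule.iSup_induction' with
    | mem w x hx =>
      induction hx using Submodule.iSup_induction' with
      | mem hw x hx =>
        exact Submodule.mem_iSup_of_mem w (Submodule.mem_iSup_of_mem hw (hLinv w y hy x hx))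
      | zero => rw [map_zero]; exact zero_mem _
      | add x y _ _ h1 h2 => rw [map_add]; exact add_mem h1 h2
    | zero => rw [map_zero]; exact zero_mem _
    | add x y _ _ h1 h2 => rw [map_add]; exact add_mem h1 h2
  have hKmono : Monotone K := by
    intro s t hst
    refine Submodule.topologicalClosure_mono ?_
    exact biSup_mono hst
  have hKτ : ∀ s : Finset W0, τG (K s).starProjection ≤
      ∑ w ∈ s, τF ((w : H →L[ℂ] H) * star (w : H →L[ℂ] H)) := by
    intro s
    induction s using Finset.induction_on with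
    | empty =>
      have e1 : K ∅ = ⊥ := by
        rw [hKdef]
        simp
      have e2 : (K ∅).starProjection = 0 := by
        ext ξ
        have := e1.le ((K ∅).starProjection_apply_mem ξ)
        rw [Submodule.mem_bot] at this
        exact this
      have e3 : τG 0 = 0 := by
        have := hτG.formula 0 (zero_mem _)
        simpa using this
      rw [e2, e3]
      simp
    | insert w s hw ih =>
      rw [Finset.sum_insert hw]
      have e1 : K (insert w s) ≤ (L w ⊔ K s).topologicalClosure := by
        rw [hKdef]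
        refine Submodule.topologicalClosure_mono ?_
        refine iSup₂_le fun u hu => ?_
        rcases Finset.mem_insert.1 hu with rfl | hu
        · exact le_sup_left
        · refine le_trans ?_ le_sup_right
          rw [hKdef]
          exact (le_iSup₂_of_le (f := fun u (_ : u ∈ s) => L u) u hu le_rfl).trans
            (Submodule.le_topologicalClosure _)
      have hinv2 : ∀ y ∈ S.RF G, ∀ x ∈ (L w ⊔ K s).topologicalClosure,
          y x ∈ (L w ⊔ K s).topologicalClosure := by
        intro y hy
        refine closure_inv y fun x hx => ?_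
        obtain ⟨k, hk, l, hl, rfl⟩ := Submodule.mem_sup.1 hx
        rw [map_add]
        exact Submodule.add_mem_sup (hLinv w y hy k hk) (hKinv s y hy l hl)
      calc τG (K (insert w s)).starProjection
          ≤ τG (L w ⊔ K s).topologicalClosure.starProjection :=
            hTG.mono (proj_mem hRG _ (hKinv _)) (proj_mem hRG _ hinv2)
              (proj_nonneg isStarProjection_starProjection)
              (Submodule.starProjection_le_starProjection_iff.2 e1)
        _ ≤ τG (L w).starProjection + τG (K s).starProjection :=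
            hTG.join hRG (L w) (K s) (hLinv w) (hKinv s)
        _ ≤ _ := add_le_add (hLτ w) ih
  -- orthogonal sums in `V`
  have hsum : ∀ s : Finset W0, (∑ w ∈ s, (w : H →L[ℂ] H) * star (w : H →L[ℂ] H)) ∈
      Set.centralizer (S.RF F) ∧
      IsStarProjection (∑ w ∈ s, (w : H →L[ℂ] H) * star (w : H →L[ℂ] H)) ∧
      V.starProjection * (∑ w ∈ s, (w : H →L[ℂ] H) * star (w : H →L[ℂ] H)) =
        ∑ w ∈ s, (w : H →L[ℂ] H) * star (w : H →L[ℂ] H) ∧
      τF (∑ w ∈ s, (w : H →L[ℂ] H) * star (w : H →L[ℂ] H)) =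
        ∑ w ∈ s, τF ((w : H →L[ℂ] H) * star (w : H →L[ℂ] H)) := by
    intro s
    induction s using Finset.induction_on with
    | empty =>
      refine ⟨?_, ?_, ?_, ?_⟩
      · simp only [Finset.sum_empty]
        exact Set.zero_mem_centralizer
      · simp only [Finset.sum_empty]
        exact IsStarProjection.zero _
      · simp
      · simp only [Finset.sum_empty]
        have := hτF.formula 0 (zero_mem _)
        simpa using this
    | insert w s hw ih =>
      obtain ⟨i1, i2, i3, i4⟩ := ih
      obtain ⟨a1, a2, a3, a4⟩ := h1 w w.2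
      have hwm : (w : H →L[ℂ] H) * star (w : H →L[ℂ] H) ∈ Set.centralizer (S.RF F) :=
        cent_mul a1 (cent_star hRF a1)
      have hwp : IsStarProjection ((w : H →L[ℂ] H) * star (w : H →L[ℂ] H)) :=
        pi_final a3.isIdempotentElem rfl
      have horth : ((w : H →L[ℂ] H) * star (w : H →L[ℂ] H)) *
          (∑ w ∈ s, (w : H →L[ℂ] H) * star (w : H →L[ℂ] H)) = 0 := by
        rw [Finset.mul_sum]
        refine Finset.sum_eq_zero fun u hu => ?_
        have hne : (w : H →L[ℂ] H) ≠ u := by
          intro h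
          exact hw ((Subtype.ext h) ▸ hu)
        rw [mul_assoc, ← mul_assoc (star (w : H →L[ℂ] H)), h2 w.2 u.2 hne, zero_mul, mul_zero]
      have horth' : (∑ w ∈ s, (w : H →L[ℂ] H) * star (w : H →L[ℂ] H)) *
          ((w : H →L[ℂ] H) * star (w : H →L[ℂ] H)) = 0 := by
        have := congrArg star horth
        rwa [star_mul, i2.isSelfAdjoint.star_eq, hwp.isSelfAdjoint.star_eq, star_zero] at this
      simp only [Finset.sum_insert hw]
      refine ⟨cent_add hwm i1, ⟨?_, hwp.isSelfAdjoint.add i2.isSelfAdjoint⟩, ?_, ?_⟩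
      · change (_ + _) * (_ + _) = _ + _
        rw [add_mul, mul_add, mul_add, horth, horth', hwp.isIdempotentElem.eq,
          i2.isIdempotentElem.eq]
        abel
      · rw [mul_add, i3]
        congr 1
        ext ξ
        exact V.starProjection_eq_self_iff.2 (a4 _)
      · rw [hTF.add _ hwm _ i1 (proj_nonneg hwp) (proj_nonneg i2), i4]
  have hPV : V.starProjection ∈ Set.centralizer (S.RF F) := proj_mem hRF V hV
  have hfin : ∀ s : Finset W0, τG (K s).starProjection ≤ τF V.starProjection := by
    intro s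
    obtain ⟨i1, i2, i3, i4⟩ := hsum s
    refine (hKτ s).trans ?_
    rw [← i4]
    exact hTF.mono i1 hPV (proj_nonneg i2)
      (proj_le i2 isStarProjection_starProjection i3)
  refine ⟨(⨆ s, K s).topologicalClosure, ?_, ?_, Submodule.isClosed_topologicalClosure _, ?_⟩
  · refine h3.trans ?_
    refine Submodule.topologicalClosure_minimal _ ?_ (Submodule.isClosed_topologicalClosure _)
    refine iSup₂_le fun w hw => ?_
    have hwL : LinearMap.range (w : H →ₗ[ℂ] H) ≤ L ⟨w, hw⟩ := by
      rintro _ ⟨ξ, rfl⟩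
      obtain ⟨a1, a2, -, -⟩ := h1 w hw
      have e1 : w ξ = w (S.e F ξ) := by
        conv_lhs => rw [← a2]
        rfl
      change w ξ ∈ L ⟨w, hw⟩
      rw [e1]
      have hc : IsClosed {x : H | w x ∈ L ⟨w, hw⟩} :=
        (Submodule.isClosed_topologicalClosure _).preimage w.continuous
      have h5 : (S.sub F : Set H) ⊆ {x : H | w x ∈ L ⟨w, hw⟩} := by
        rw [sub_eq, Submodule.topologicalClosure_coe]
        refine closure_minimal ?_ hc
        rintro _ ⟨f, hf, rfl⟩
        change w (f S.Ω) ∈ L ⟨w, hw⟩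
        rw [← S.Rt_Ω' (hF hf)]
        have e2 : w (S.Rt f S.Ω) = S.Rt f (w S.Ω) := (mem_cent.1 a1 _ ⟨f, hf, rfl⟩ _).symm
        rw [e2]
        exact Submodule.le_topologicalClosure _ ⟨f, hFG hf, rfl⟩
      exact h5 (e_apply_mem F ξ)
    refine hwL.trans ?_
    refine le_trans ?_ (Submodule.le_topologicalClosure _)
    refine le_trans ?_ (le_iSup K {⟨w, hw⟩})
    rw [hKdef]
    simp only [Finset.mem_singleton, iSup_iSup_eq_left]
    exact Submodule.le_topologicalClosure _
  · intro y hy
    refine closure_inv y fun x hx => ?_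
    induction hx using Submodule.iSup_induction' with
    | mem s x hx => exact Submodule.mem_iSup_of_mem s (hKinv s y hy x hx)
    | zero => rw [map_zero]; exact zero_mem _
    | add x y _ _ h1 h2 => rw [map_add]; exact add_mem h1 h2
  · have hcl : ((⨆ s, K s).topologicalClosure).topologicalClosure =
        (⨆ s, K s).topologicalClosure :=
      (Submodule.isClosed_topologicalClosure _).submodule_topologicalClosure_eq
    have e1 : ((⨆ s, K s).topologicalClosure).topologicalClosure.starProjection =
        (⨆ s, K s).topologicalClosure.starProjection := by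
      congr 1
    rw [e1]
    exact hTG.iSup_le hRG K hKinv hKmono hfin

/-! ### the unitary -/

theorem α_mem {g : H →L[ℂ] H} (hg : g ∈ S.A) : S.α g ∈ S.A := S.isAut.bij.mapsTo hg

theorem U_Rt {g : H →L[ℂ] H} (hg : g ∈ S.A) (x : H) :
    S.U (S.Rt g x) = S.Rt (S.α g) (S.U x) := by
  have := S.ext_cyc (f := fun x => S.U (S.Rt g x))
    (g := fun x => S.Rt (S.α g) (S.U x))
    (S.U.continuous.comp (S.Rt g).continuous) ((S.Rt _).continuous.comp S.U.continuous)
    (fun a ha => by
      rw [S.Rt_Ω ha hg]
      have h1 := S.U_apply a ha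
      have h2 := S.U_apply (a * g) (mul_mem ha hg)
      rw [S.isAut.map_mul a ha g hg] at h2
      change S.U (a (g S.Ω)) = _ at h2
      rw [h1, h2, S.Rt_Ω (α_mem ha) (α_mem hg)]
      rfl)
  exact congrFun this x

theorem Usymm_Rt {g : H →L[ℂ] H} (hg : g ∈ S.A) (x : H) :
    S.U.symm (S.Rt (S.α g) x) = S.Rt g (S.U.symm x) := by
  have h1 := U_Rt (S := S) hg (S.U.symm x)
  rw [LinearIsometryEquiv.apply_symm_apply] at h1
  rw [← h1, LinearIsometryEquiv.symm_apply_apply]

theorem IsSubsystem.α_mem {F : VonNeumannAlgebra H} (hF : S.IsSubsystem F) {f : H →L[ℂ] H}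
    (hf : f ∈ F) : S.α f ∈ F := by
  have h : S.α f ∈ (F : Set (H →L[ℂ] H)) := by
    rw [← hF.2]
    exact ⟨f, hf, rfl⟩
  exact h

theorem IsSubsystem.exists_α {F : VonNeumannAlgebra H} (hF : S.IsSubsystem F) {f : H →L[ℂ] H}
    (hf : f ∈ F) : ∃ g ∈ F, S.α g = f := by
  have h : f ∈ S.α '' (F : Set (H →L[ℂ] H)) := by
    rw [hF.2]
    exact hf
  exact h

/-- invariance under `U` and its inverse -/
def UInv (S : TracialSystem H) (V : Submodule ℂ H) : Prop :=
  ∀ x ∈ V, S.U x ∈ V ∧ S.U.symm x ∈ V

theorem uinv_iff (V : Submodule ℂ H) :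
    V.map (S.U.toLinearEquiv : H →ₗ[ℂ] H) = V ↔ S.UInv V := by
  constructor
  · intro h x hx
    constructor
    · rw [← h]; exact ⟨x, hx, rfl⟩
    · rw [← h] at hx
      obtain ⟨y, hy, rfl⟩ := hx
      change S.U.symm (S.U y) ∈ V
      rwa [LinearIsometryEquiv.symm_apply_apply]
  · intro h
    ext x
    constructor
    · rintro ⟨y, hy, rfl⟩
      exact (h y hy).1
    · intro hx
      exact ⟨S.U.symm x, (h x hx).2, S.U.apply_symm_apply x⟩

theorem uinv_sub {F : VonNeumannAlgebra H} (hF : S.IsSubsystem F) : S.UInv (S.sub F) := by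
  intro x hx
  refine ⟨sub_maps S.U.continuous (fun f hf => ?_) x hx,
    sub_maps S.U.symm.continuous (fun f hf => ?_) x hx⟩
  · rw [S.U_apply f (hF.1 hf)]
    exact f_mem_sub (hF.α_mem hf)
  · obtain ⟨g, hg, rfl⟩ := hF.exists_α hf
    rw [← S.U_apply g (hF.1 hg), LinearIsometryEquiv.symm_apply_apply]
    exact f_mem_sub hg

theorem U_e {F : VonNeumannAlgebra H} (hF : S.IsSubsystem F) (x : H) :
    S.U (S.e F x) = S.e F (S.U x) := by
  symm
  refine (S.sub F).eq_starProjection_of_mem_of_inner_eq_zero ?_ ?_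
  · exact (uinv_sub hF _ (e_apply_mem F x)).1
  · intro w hw
    rw [← map_sub, ← S.U.symm.inner_map_map, LinearIsometryEquiv.symm_apply_apply]
    exact (S.sub F).starProjection_inner_eq_zero _ _ (uinv_sub hF _ hw).2

theorem Usymm_e {F : VonNeumannAlgebra H} (hF : S.IsSubsystem F) (x : H) :
    S.U.symm (S.e F x) = S.e F (S.U.symm x) := by
  have := U_e hF (S.U.symm x)
  rw [LinearIsometryEquiv.apply_symm_apply] at this
  rw [← this, LinearIsometryEquiv.symm_apply_apply]

theorem uinv_closure {V : Submodule ℂ H} {K : Submodule ℂ H} (hK : V = K.topologicalClosure)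
    (h : ∀ x ∈ K, S.U x ∈ V ∧ S.U.symm x ∈ V) : S.UInv V := by
  have hVc : IsClosed (V : Set H) := by
    rw [hK]; exact Submodule.isClosed_topologicalClosure _
  intro x hx
  have h1 : IsClosed {x : H | S.U x ∈ V ∧ S.U.symm x ∈ V} :=
    (hVc.preimage S.U.continuous).inter (hVc.preimage S.U.symm.continuous)
  have h2 : (V : Set H) ⊆ {x : H | S.U x ∈ V ∧ S.U.symm x ∈ V} := by
    conv_lhs => rw [hK, Submodule.topologicalClosure_coe]
    exact closure_minimal h h1
  exact h2 hx

/-- **Main theorem for given canonical traces.** -/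
theorem main_of_traces {F G : VonNeumannAlgebra H} (hF : S.IsSubsystem F) (hG : S.IsSubsystem G)
    (hFG : F ≤ G) {τF τG : (H →L[ℂ] H) → ℝ≥0∞} (hτF : S.IsCanonicalTrace F τF)
    (hτG : S.IsCanonicalTrace G τG) (h : S.relSpan F τF = (S.sub F)ᗮ) :
    S.relSpan G τG = (S.sub G)ᗮ := by
  have hRG := S.RF_SA G
  have hTG := hτG.tr hG.1
  -- every module of `F` gives a module of `G`
  have key : ∀ V : Submodule ℂ H, S.IsUModule F τF V → ∀ v ∈ V, v - S.e G v ∈ S.relSpan G τG := by
    intro V hV v hv
    have hVc : CompleteSpace V := hV.closed.completeSpace_coe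
    have hVinv : ∀ y ∈ S.RF F, ∀ x ∈ V, y x ∈ V := by
      rintro _ ⟨f, hf, rfl⟩ x hx
      exact hV.right f hf x hx
    obtain ⟨W1, b1, b2, b3, b4⟩ := big_module hF.1 hG.1 hFG hτF hτG V hVinv
    have hVU : S.UInv V := (uinv_iff V).1 hV.inv
    -- the module generated by `V`
    set W0 : Submodule ℂ H := Submodule.span ℂ {x | ∃ g ∈ G, ∃ z ∈ V, x = S.Rt g z} with hW0
    set W := W0.topologicalClosure with hW
    have hW0inv : ∀ y ∈ S.RF G, ∀ x ∈ W0, y x ∈ W0 := by
      rintro _ ⟨g, hg, rfl⟩ x hx
      induction hx using Submodule.span_induction with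
      | mem x h =>
        obtain ⟨g', hg', z, hz, rfl⟩ := h
        exact Submodule.subset_span ⟨g' * g, mul_mem hg' hg, z, hz, S.Rt_mul g' g z⟩
      | zero => rw [map_zero]; exact zero_mem _
      | add x y _ _ h1 h2 => rw [map_add]; exact add_mem h1 h2
      | smul c x _ h => rw [map_smul]; exact Submodule.smul_mem _ _ h
    have hWinv : ∀ y ∈ S.RF G, ∀ x ∈ W, y x ∈ W := fun y hy => closure_inv y (hW0inv y hy)
    have hVW : V ≤ W := fun x hx => Submodule.le_topologicalClosure _
      (Submodule.subset_span ⟨1, one_mem G, x, hx, (Rt_one x).symm⟩)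
    have hWW1 : W ≤ W1 := by
      refine Submodule.topologicalClosure_minimal _ ?_ b3
      refine Submodule.span_le.2 ?_
      rintro _ ⟨g, hg, z, hz, rfl⟩
      exact b2 _ ⟨g, hg, rfl⟩ z (b1 hz)
    have hWU : S.UInv W := by
      refine uinv_closure hW ?_
      intro x hx
      induction hx using Submodule.span_induction with
      | mem x h =>
        obtain ⟨g, hg, z, hz, rfl⟩ := h
        constructor
        · rw [U_Rt (hG.1 hg)]
          exact Submodule.le_topologicalClosure _ (Submodule.subset_span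
            ⟨_, hG.α_mem hg, _, (hVU z hz).1, rfl⟩)
        · obtain ⟨g', hg', rfl⟩ := hG.exists_α hg
          rw [Usymm_Rt (hG.1 hg')]
          exact Submodule.le_topologicalClosure _ (Submodule.subset_span
            ⟨_, hg', _, (hVU z hz).2, rfl⟩)
      | zero => rw [map_zero, map_zero]; exact ⟨zero_mem _, zero_mem _⟩
      | add x y _ _ h1 h2 =>
        rw [map_add, map_add]
        exact ⟨add_mem h1.1 h2.1, add_mem h1.2 h2.2⟩
      | smul c x _ h =>
        rw [map_smul, map_smul]
        exact ⟨Submodule.smul_mem _ _ h.1, Submodule.smul_mem _ _ h.2⟩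
    -- cut down
    set P := W.starProjection with hP
    have hPm : P ∈ Set.centralizer (S.RF G) := proj_mem hRG W hWinv
    have hPp : IsStarProjection P := isStarProjection_starProjection
    set T := (1 - S.e G) * P with hT
    have hTm : T ∈ Set.centralizer (S.RF G) := cent_mul (cent_sub cent_one (e_cent hG.1)) hPm
    obtain ⟨u, hu, c1, c2, c3⟩ := exists_polar' hRG hTm
    have hTP : T * P = T := by rw [hT, mul_assoc, hPp.isIdempotentElem.eq]
    set W' := (LinearMap.range (T : H →ₗ[ℂ] H)).topologicalClosure with hW'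
    have hTx : ∀ x, T x = P x - S.e G (P x) := fun x => rfl
    have hmod : S.IsUModule G τG W' := by
      refine ⟨Submodule.isClosed_topologicalClosure _, ?_, ?_, ?_, ?_⟩
      · intro g hg
        refine closure_inv (S.Rt g) ?_
        rintro _ ⟨ξ, rfl⟩
        exact ⟨S.Rt g ξ, (mem_cent.1 hTm _ ⟨g, hg, rfl⟩ ξ).symm⟩
      · refine Submodule.topologicalClosure_minimal _ ?_ (Submodule.isClosed_orthogonal _)
        rintro _ ⟨ξ, rfl⟩
        exact (S.sub G).sub_starProjection_mem_orthogonal _
      · rw [uinv_iff]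
        refine uinv_closure hW' ?_
        rintro _ ⟨ξ, rfl⟩
        have hUP : P (S.U (P ξ)) = S.U (P ξ) :=
          W.starProjection_eq_self_iff.2 (hWU _ (W.starProjection_apply_mem ξ)).1
        have hUP' : P (S.U.symm (P ξ)) = S.U.symm (P ξ) :=
          W.starProjection_eq_self_iff.2 (hWU _ (W.starProjection_apply_mem ξ)).2
        constructor
        · refine Submodule.le_topologicalClosure _ ⟨S.U (P ξ), ?_⟩
          change T (S.U (P ξ)) = S.U (T ξ)
          rw [hTx, hTx, hUP, map_sub, U_e hG]
        · refine Submodule.le_topologicalClosure _ ⟨S.U.symm (P ξ), ?_⟩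
          change T (S.U.symm (P ξ)) = S.U.symm (T ξ)
          rw [hTx, hTx, hUP', map_sub, Usymm_e hG]
      · have e1 : W'.topologicalClosure = W' :=
          (Submodule.isClosed_topologicalClosure _).submodule_topologicalClosure_eq
        have e2 : W'.topologicalClosure.starProjection = W'.starProjection := by
          congr 1
        have e3 : W1.topologicalClosure = W1 := b3.submodule_topologicalClosure_eq
        rw [e2, ← c2]
        have e4 : τG (u * star u) ≤ τG P := hTG.pis hu hPm hRG c1 hPp (c3 P hTP)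
        have e5 : τG P ≤ τG W1.topologicalClosure.starProjection := by
          refine hTG.mono hPm (proj_mem hRG _ (fun y hy => closure_inv y (b2 y hy)))
            (proj_nonneg hPp) (Submodule.starProjection_le_starProjection_iff.2 ?_)
          exact hWW1.trans (Submodule.le_topologicalClosure _)
        have e6 : V.topologicalClosure.starProjection = V.starProjection := by
          have : V.topologicalClosure = V := hV.closed.submodule_topologicalClosure_eq
          congr 1
        have e7 := hV.finite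
        rw [e6] at e7
        exact ((e4.trans e5).trans b4).trans_lt e7
    have h8 : v - S.e G v ∈ W' := by
      refine Submodule.le_topologicalClosure _ ⟨v, ?_⟩
      change T v = _
      rw [hTx]
      have : P v = v := W.starProjection_eq_self_iff.2 (hVW hv)
      rw [this]
    exact Submodule.le_topologicalClosure _
      ((le_sSup (a := W') (show W' ∈ {V | S.IsUModule G τG V} from hmod)) h8)
  -- the conclusion
  have hle : S.relSpan G τG ≤ (S.sub G)ᗮ := by
    refine Submodule.topologicalClosure_minimal _ ?_ (Submodule.isClosed_orthogonal _)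
    exact sSup_le fun V hV => hV.perp
  refine le_antisymm hle ?_
  intro x hx
  have hEinst : (S.relSpan G τG).HasOrthogonalProjection := by
    unfold relSpan
    infer_instance
  set E := S.relSpan G τG with hE
  set z := x - E.starProjection x with hz
  have hzE : z ∈ Eᗮ := E.sub_starProjection_mem_orthogonal x
  have hzG : z ∈ (S.sub G)ᗮ := Submodule.sub_mem _ hx (hle (E.starProjection_apply_mem x))
  have hez : ∀ y, ⟪S.e G y, z⟫_ℂ = 0 := fun y => hzG _ (e_apply_mem G y)
  have h1 : ∀ V : Submodule ℂ H, S.IsUModule F τF V → V ≤ (ℂ ∙ z)ᗮ := by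
    intro V hV v hv
    rw [Submodule.mem_orthogonal_singleton_iff_inner_left]
    have h2 := hzE _ (key V hV v hv)
    rw [inner_sub_left, hez, sub_zero] at h2
    exact h2
  have h2 : S.relSpan F τF ≤ (ℂ ∙ z)ᗮ := by
    refine Submodule.topologicalClosure_minimal _ ?_ (Submodule.isClosed_orthogonal _)
    exact sSup_le h1
  rw [h] at h2
  have h3 : z ∈ S.sub F := by
    rw [← (S.sub F).orthogonal_orthogonal]
    intro y hy
    have := h2 hy
    rwa [Submodule.mem_orthogonal_singleton_iff_inner_left] at this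
  have h4 : z = 0 := by
    have h5 : ⟪z, z⟫_ℂ = 0 := hzG _ (sub_mono hFG h3)
    exact inner_self_eq_zero.1 h5
  have h5 : x = E.starProjection x := sub_eq_zero.1 h4
  rw [h5]
  exact E.starProjection_apply_mem x

end TracialSystem

end Pool.Agent.K3h42.IE
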